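import Pool.Agent.T3h47.EQ.Tree

/-!
# Pairs: counting in rectangles
-/

set_option autoImplicit false

namespace Pool.Agent.T3h47.EQ

open Finset

variable {κ : Type}

open Classical in
/-- the number of pairs in `A × B` with the property `g` -/
noncomputable def cnt (g : ℕ → ℕ → Prop) (A B : Finset ℕ) : ℕ :=
  ((A ×ˢ B).filter (fun p => g p.1 p.2)).card

theorem cnt_le_mul (g : ℕ → ℕ → Prop) (A B : Finset ℕ) : cnt g A B ≤ A.card * B.card := by
  classical
  unfold cnt
  exact (card_filter_le _ _).trans (by rw [card_product])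

theorem cnt_mono {g : ℕ → ℕ → Prop} {A A' B B' : Finset ℕ} (hA : A ⊆ A') (hB : B ⊆ B') :
    cnt g A B ≤ cnt g A' B' := by
  classical
  unfold cnt
  exact card_le_card (filter_subset_filter _ (product_subset_product hA hB))

theorem cnt_left {g : ℕ → ℕ → Prop} {A A₁ A₂ B : Finset ℕ} (h : A ⊆ A₁ ∪ A₂) :
    cnt g A B ≤ cnt g A₁ B + cnt g A₂ B := by
  classical
  unfold cnt
  refine le_trans (card_le_card ?_) (card_union_le _ _)
  intro p hp
  rw [mem_filter, mem_product] at hp
  rw [mem_union, mem_filter, mem_filter, mem_product, mem_product]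
  rcases mem_union.1 (h hp.1.1) with h1 | h1
  · exact Or.inl ⟨⟨h1, hp.1.2⟩, hp.2⟩
  · exact Or.inr ⟨⟨h1, hp.1.2⟩, hp.2⟩

theorem cnt_right {g : ℕ → ℕ → Prop} {A B B₁ B₂ : Finset ℕ} (h : B ⊆ B₁ ∪ B₂) :
    cnt g A B ≤ cnt g A B₁ + cnt g A B₂ := by
  classical
  unfold cnt
  refine le_trans (card_le_card ?_) (card_union_le _ _)
  intro p hp
  rw [mem_filter, mem_product] at hp
  rw [mem_union, mem_filter, mem_filter, mem_product, mem_product]
  rcases mem_union.1 (h hp.1.2) with h1 | h1
  · exact Or.inl ⟨⟨hp.1.1, h1⟩, hp.2⟩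
  · exact Or.inr ⟨⟨hp.1.1, h1⟩, hp.2⟩

theorem cnt_congr {g g' : ℕ → ℕ → Prop} {A B : Finset ℕ}
    (h : ∀ x ∈ A, ∀ y ∈ B, (g x y ↔ g' x y)) : cnt g A B = cnt g' A B := by
  classical
  unfold cnt
  congr 1
  apply filter_congr
  intro p hp
  rw [mem_product] at hp
  exact h _ hp.1 _ hp.2

theorem cnt_compl (g : ℕ → ℕ → Prop) (A B : Finset ℕ) :
    cnt g A B + cnt (fun x y => ¬ g x y) A B = A.card * B.card := by
  classical
  unfold cnt
  rw [← card_product, ← card_filter_add_card_filter_not (s := A ×ˢ B) (fun p => g p.1 p.2)]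
  congr!

theorem amgm (a b : ℕ) : 4 * (a * b) ≤ (a + b) ^ 2 := by
  zify
  nlinarith [sq_nonneg ((a : ℤ) - b)]

/-- the power three quarters -/
noncomputable def ph (t : ℕ) : ℝ := (t : ℝ) ^ (3 / 4 : ℝ)

theorem ph_nonneg (t : ℕ) : 0 ≤ ph t := Real.rpow_nonneg (Nat.cast_nonneg t) _

theorem ph_mono {t u : ℕ} (h : t ≤ u) : ph t ≤ ph u :=
  Real.rpow_le_rpow (Nat.cast_nonneg t) (by exact_mod_cast h) (by norm_num)

theorem ph_quarter {t u : ℕ} (h : 4 * t ≤ u) : 2.8 * ph t ≤ ph u := by
  have h1 : ph (4 * t) ≤ ph u := ph_mono h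
  refine le_trans ?_ h1
  unfold ph
  push_cast
  rw [Real.mul_rpow (by norm_num) (Nat.cast_nonneg t)]
  apply mul_le_mul_of_nonneg_right _ (Real.rpow_nonneg (Nat.cast_nonneg t) _)
  have h2 : ((4 : ℝ) ^ (3 / 4 : ℝ)) ^ 4 = 64 := by
    rw [← Real.rpow_natCast, ← Real.rpow_mul (by norm_num)]
    norm_num
  have h3 : (0 : ℝ) ≤ (4 : ℝ) ^ (3 / 4 : ℝ) := by positivity
  by_contra hcon
  push Not at hcon
  have h4 : ((4 : ℝ) ^ (3 / 4 : ℝ)) ^ 4 < 2.8 ^ 4 := pow_lt_pow_left₀ hcon h3 (by norm_num)
  rw [h2] at h4
  norm_num at h4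

/-- Counting in a product which is cut according to the order of `F x` and `G y`. -/
theorem cells (F G : ℕ → ℕ) (g : ℕ → ℕ → Prop) (K : ℝ) (hK : 0 ≤ K) : ∀ (m : ℕ) (X Y : Finset ℕ),
    X.card + Y.card ≤ m →
    (∀ A ⊆ X, ∀ B ⊆ Y, ((∀ x ∈ A, ∀ y ∈ B, F x < G y) ∨ (∀ x ∈ A, ∀ y ∈ B, F x = G y) ∨
      (∀ x ∈ A, ∀ y ∈ B, G y < F x)) → (cnt g A B : ℝ) ≤ K * ph (A.card * B.card)) →
    (cnt g X Y : ℝ) ≤ 18 * K * ph (X.card * Y.card) := by
  classical
  intro m
  induction m with
  | zero =>
    intro X Y hm _
    have h1 := cnt_le_mul g X Y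
    have h2 : X.card = 0 := by omega
    rw [h2, zero_mul] at h1
    have h3 : cnt g X Y = 0 := by omega
    rw [h3]
    have := ph_nonneg (X.card * Y.card)
    simp only [Nat.cast_zero]
    positivity
  | succ m ih =>
    intro X Y hm H
    rcases Nat.eq_zero_or_pos (X.card * Y.card) with h0 | h0
    · have h1 := cnt_le_mul g X Y
      have h3 : cnt g X Y = 0 := by omega
      rw [h3]
      have := ph_nonneg (X.card * Y.card)
      simp only [Nat.cast_zero]
      positivity
    have hX0 : 0 < X.card := Nat.pos_of_mul_pos_right h0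
    have hY0 : 0 < Y.card := Nat.pos_of_mul_pos_left h0
    -- the median
    have hex : ∃ p, X.card * Y.card ≤ (X.filter (fun x => F x ≤ p)).card * Y.card +
        (Y.filter (fun y => G y ≤ p)).card * X.card := by
      refine ⟨X.sup F, ?_⟩
      rw [filter_true_of_mem (fun w hw => le_sup hw)]
      omega
    obtain ⟨p, hp1, hp2⟩ : ∃ p, X.card * Y.card ≤ (X.filter (fun x => F x ≤ p)).card * Y.card +
        (Y.filter (fun y => G y ≤ p)).card * X.card ∧
        (X.filter (fun x => F x < p)).card * Y.card + (Y.filter (fun y => G y < p)).card * X.card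
          < X.card * Y.card := by
      refine ⟨Nat.find hex, Nat.find_spec hex, ?_⟩
      rcases Nat.eq_zero_or_pos (Nat.find hex) with h | h
      · rw [h]
        simp only [not_lt_zero, filter_false, card_empty]
        omega
      · have := Nat.find_min hex (m := Nat.find hex - 1) (by omega)
        push Not at this
        refine lt_of_le_of_lt ?_ this
        apply Nat.add_le_add
        · apply Nat.mul_le_mul_right
          apply card_le_card
          intro w hw
          rw [mem_filter] at hw ⊢
          exact ⟨hw.1, by omega⟩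
        · apply Nat.mul_le_mul_right
          apply card_le_card
          intro w hw
          rw [mem_filter] at hw ⊢
          exact ⟨hw.1, by omega⟩
    set XL := X.filter (fun x => F x < p) with hXL
    set XE := X.filter (fun x => F x = p) with hXE
    set XG := X.filter (fun x => p < F x) with hXG
    set YL := Y.filter (fun y => G y < p) with hYL
    set YE := Y.filter (fun y => G y = p) with hYE
    set YG := Y.filter (fun y => p < G y) with hYG
    set YLE := Y.filter (fun y => G y ≤ p) with hYLE
    set YGE := Y.filter (fun y => p ≤ G y) with hYGE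
    have sXL : XL ⊆ X := filter_subset _ _
    have sXE : XE ⊆ X := filter_subset _ _
    have sXG : XG ⊆ X := filter_subset _ _
    have sYL : YL ⊆ Y := filter_subset _ _
    have sYE : YE ⊆ Y := filter_subset _ _
    have sYG : YG ⊆ Y := filter_subset _ _
    have sYLE : YLE ⊆ Y := filter_subset _ _
    have sYGE : YGE ⊆ Y := filter_subset _ _
    -- the sizes
    have c1 := card_filter_add_card_filter_not (s := X) (fun x => F x ≤ p)
    have c2 := card_filter_add_card_filter_not (s := Y) (fun y => G y ≤ p)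
    have c3 : X.filter (fun x => ¬ F x ≤ p) = XG := by
      apply filter_congr
      intro x _
      exact not_le
    have c4 : Y.filter (fun y => ¬ G y ≤ p) = YG := by
      apply filter_congr
      intro x _
      exact not_le
    rw [c3] at c1
    rw [c4] at c2
    have hG : XG.card * Y.card + YG.card * X.card ≤ X.card * Y.card := by
      have d1 : XG.card * Y.card + (X.filter (fun x => F x ≤ p)).card * Y.card =
          X.card * Y.card := by
        rw [← add_mul, add_comm XG.card, c1]
      have d2 : YG.card * X.card + YLE.card * X.card = X.card * Y.card := by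
        rw [← add_mul, add_comm YG.card, c2, mul_comm]
      omega
    have q1 : 4 * (XL.card * YL.card) ≤ X.card * Y.card := by
      have e1 : 4 * (XL.card * YL.card) * (X.card * Y.card) ≤
          (X.card * Y.card) * (X.card * Y.card) := by
        have e2 : 4 * ((XL.card * Y.card) * (YL.card * X.card)) ≤
            (XL.card * Y.card + YL.card * X.card) ^ 2 := amgm _ _
        calc 4 * (XL.card * YL.card) * (X.card * Y.card) =
              4 * ((XL.card * Y.card) * (YL.card * X.card)) := by ring
          _ ≤ (XL.card * Y.card + YL.card * X.card) ^ 2 := e2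
          _ ≤ (X.card * Y.card) ^ 2 := Nat.pow_le_pow_left hp2.le 2
          _ = _ := by ring
      exact Nat.le_of_mul_le_mul_right e1 h0
    have q2 : 4 * (XG.card * YG.card) ≤ X.card * Y.card := by
      have e1 : 4 * (XG.card * YG.card) * (X.card * Y.card) ≤
          (X.card * Y.card) * (X.card * Y.card) := by
        have e2 : 4 * ((XG.card * Y.card) * (YG.card * X.card)) ≤
            (XG.card * Y.card + YG.card * X.card) ^ 2 := amgm _ _
        calc 4 * (XG.card * YG.card) * (X.card * Y.card) =
              4 * ((XG.card * Y.card) * (YG.card * X.card)) := by ring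
          _ ≤ (XG.card * Y.card + YG.card * X.card) ^ 2 := e2
          _ ≤ (X.card * Y.card) ^ 2 := Nat.pow_le_pow_left hG 2
          _ = _ := by ring
      exact Nat.le_of_mul_le_mul_right e1 h0
    have m1 : XL.card + YL.card ≤ m := by
      by_contra hcon
      have t1 := card_le_card sXL
      have t2 := card_le_card sYL
      have t3 : XL.card = X.card := by omega
      have t4 : YL.card = Y.card := by omega
      rw [t3, t4] at q1
      omega
    have m2 : XG.card + YG.card ≤ m := by
      by_contra hcon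
      have t1 := card_le_card sXG
      have t2 := card_le_card sYG
      have t3 : XG.card = X.card := by omega
      have t4 : YG.card = Y.card := by omega
      rw [t3, t4] at q2
      omega
    have r1 := ih XL YL m1 (fun A hA B hB => H A (hA.trans sXL) B (hB.trans sYL))
    have r2 := ih XG YG m2 (fun A hA B hB => H A (hA.trans sXG) B (hB.trans sYG))
    have u1 := H XL sXL YGE sYGE (Or.inl (fun x hx y hy =>
      lt_of_lt_of_le (mem_filter.1 hx).2 (mem_filter.1 hy).2))
    have u2 := H XE sXE YL sYL (Or.inr (Or.inr (fun x hx y hy => by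
      rw [(mem_filter.1 hx).2]; exact (mem_filter.1 hy).2)))
    have u3 := H XE sXE YE sYE (Or.inr (Or.inl (fun x hx y hy => by
      rw [(mem_filter.1 hx).2, (mem_filter.1 hy).2])))
    have u4 := H XE sXE YG sYG (Or.inl (fun x hx y hy => by
      rw [(mem_filter.1 hx).2]; exact (mem_filter.1 hy).2))
    have u5 := H XG sXG YLE sYLE (Or.inr (Or.inr (fun x hx y hy =>
      lt_of_le_of_lt (mem_filter.1 hy).2 (mem_filter.1 hx).2)))
    have v1 : ∀ A ⊆ X, ∀ B ⊆ Y, ph (A.card * B.card) ≤ ph (X.card * Y.card) :=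
      fun A hA B hB => ph_mono (Nat.mul_le_mul (card_le_card hA) (card_le_card hB))
    have w1 := v1 XL sXL YGE sYGE
    have w2 := v1 XE sXE YL sYL
    have w3 := v1 XE sXE YE sYE
    have w4 := v1 XE sXE YG sYG
    have w5 := v1 XG sXG YLE sYLE
    have z1 := ph_quarter q1
    have z2 := ph_quarter q2
    -- the sum
    have k1 : cnt g X Y ≤ cnt g XL Y + (cnt g XE Y + cnt g XG Y) := by
      refine (cnt_left (A₁ := XL) (A₂ := XE ∪ XG) ?_).trans
        (Nat.add_le_add_left (cnt_left Subset.rfl) _)
      intro x hx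
      rw [mem_union, mem_union, mem_filter, mem_filter, mem_filter]
      rcases lt_trichotomy (F x) p with h | h | h
      · exact Or.inl ⟨hx, h⟩
      · exact Or.inr (Or.inl ⟨hx, h⟩)
      · exact Or.inr (Or.inr ⟨hx, h⟩)
    have k2 : cnt g XL Y ≤ cnt g XL YL + cnt g XL YGE := by
      apply cnt_right
      intro y hy
      rw [mem_union, mem_filter, mem_filter]
      rcases lt_or_ge (G y) p with h | h
      · exact Or.inl ⟨hy, h⟩
      · exact Or.inr ⟨hy, h⟩
    have k3 : cnt g XE Y ≤ cnt g XE YL + (cnt g XE YE + cnt g XE YG) := by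
      refine (cnt_right (B₁ := YL) (B₂ := YE ∪ YG) ?_).trans
        (Nat.add_le_add_left (cnt_right Subset.rfl) _)
      intro x hx
      rw [mem_union, mem_union, mem_filter, mem_filter, mem_filter]
      rcases lt_trichotomy (G x) p with h | h | h
      · exact Or.inl ⟨hx, h⟩
      · exact Or.inr (Or.inl ⟨hx, h⟩)
      · exact Or.inr (Or.inr ⟨hx, h⟩)
    have k4 : cnt g XG Y ≤ cnt g XG YLE + cnt g XG YG := by
      apply cnt_right
      intro y hy
      rw [mem_union, mem_filter, mem_filter]
      rcases le_or_gt (G y) p with h | h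
      · exact Or.inl ⟨hy, h⟩
      · exact Or.inr ⟨hy, h⟩
    have k5 : (cnt g X Y : ℝ) ≤ (cnt g XL YL + cnt g XL YGE) +
        ((cnt g XE YL + (cnt g XE YE + cnt g XE YG)) + (cnt g XG YLE + cnt g XG YG)) := by
      have : cnt g X Y ≤ (cnt g XL YL + cnt g XL YGE) +
        ((cnt g XE YL + (cnt g XE YE + cnt g XE YG)) + (cnt g XG YLE + cnt g XG YG)) := by omega
      exact_mod_cast this
    set T := ph (X.card * Y.card) with hT
    have y1 := mul_le_mul_of_nonneg_left w1 hK
    have y2 := mul_le_mul_of_nonneg_left w2 hK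
    have y3 := mul_le_mul_of_nonneg_left w3 hK
    have y4 := mul_le_mul_of_nonneg_left w4 hK
    have y5 := mul_le_mul_of_nonneg_left w5 hK
    have y6 := mul_le_mul_of_nonneg_left z1 hK
    have y7 := mul_le_mul_of_nonneg_left z2 hK
    have y8 : 0 ≤ K * T := mul_nonneg hK (ph_nonneg _)
    nlinarith

end Pool.Agent.T3h47.EQ
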