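import Pool.Agent.T3h47.EQ.Tree

/-!
# The queries after the last vertex has been dropped
-/

set_option autoImplicit false

namespace Pool.Agent.T3h47.EQ

/-- appending a vertex -/
abbrev sn {m : ℕ} (w : Fin m → ℕ) (z : ℕ) : Fin (m + 1) → ℕ := Fin.snoc (α := fun _ => ℕ) w z

/-- The equalities between `f` and `g` do not depend on the last vertex. -/
def ZI {s : ℕ} (k : ℕ) (f g : (Fin (s + 2) → ℕ) → ℕ) : Prop :=
  ∀ z ≤ k, (∀ (u : Fin (s + 2) → ℕ) (w : Fin (s + 1) → ℕ), (∀ a, u a < z) → (∀ a, w a < z) →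
      (f u = g (sn w z) ↔ f u = g (sn w k))) ∧
    (∀ w w' : Fin (s + 1) → ℕ, (∀ a, w a < z) → (∀ a, w' a < z) →
      (f (sn w z) = g (sn w' z) ↔ f (sn w k) = g (sn w' k)))

/-- one query -/
def DT.one {s : ℕ} (q : Qy s) : DT (Qy s) Bool := .ask q (.out false) (.out true)

theorem DT.run_one {s : ℕ} (ev : Qy s → Bool) (q : Qy s) : (DT.one q).run ev = ev q := by
  simp only [DT.one, DT.run]
  cases ev q <;> simp

theorem DT.depth_one {s : ℕ} (q : Qy s) : (DT.one q).depth = 1 := by
  simp [DT.one, DT.depth]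

section
variable {s k : ℕ} (x : Fin (s + 3) → ℕ)

theorem init_lt_last {x : Fin (s + 3) → ℕ} (hx : StrictMono x) (a : Fin (s + 2)) :
    Fin.init x a < x (Fin.last _) := hx (Fin.castSucc_lt_last a)

theorem initinit_lt {x : Fin (s + 3) → ℕ} (hx : StrictMono x) (a : Fin (s + 1)) :
    Fin.init (Fin.init x) a < Fin.init x (Fin.last _) := by
  simp only [Fin.init]
  apply hx
  rw [Fin.castSucc_lt_castSucc_iff]
  exact Fin.castSucc_lt_last a

theorem rem_lt {x : Fin (s + 3) → ℕ} (hx : StrictMono x) (i : Fin (s + 2)) (a : Fin (s + 1)) :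
    i.removeNth (Fin.init x) a < x (Fin.last _) := by
  rw [Fin.removeNth_apply]
  exact init_lt_last hx _

end

theorem conv_cc {s k : ℕ} (f g : (Fin (s + 2) → ℕ) → ℕ) (hfg : ZI k f g) (i j : Fin (s + 2)) :
    ∃ T : DT (Qy s) Bool, T.depth ≤ 2 ∧ ∀ x : Fin (s + 3) → ℕ, StrictMono x → (∀ a, x a ≤ k) →
      T.run (Qy.ev (Fin.init x)) =
        decide (f (i.castSucc.removeNth x) = g (j.castSucc.removeNth x)) := by
  refine ⟨DT.one (.eq i j (fun A => f (sn A k)) (fun A => g (sn A k))), by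
    rw [DT.depth_one]; norm_num, fun x hx hk => ?_⟩
  rw [DT.run_one, rem_castSucc, rem_castSucc]
  simp only [Qy.ev]
  rw [decide_eq_decide]
  exact ((hfg _ (hk _)).2 _ _ (rem_lt hx i) (rem_lt hx j)).symm

theorem conv_ll {s k : ℕ} (f g : (Fin (s + 2) → ℕ) → ℕ) (hfg : ZI k f g) :
    ∃ T : DT (Qy s) Bool, T.depth ≤ 2 ∧ ∀ x : Fin (s + 3) → ℕ, StrictMono x → (∀ a, x a ≤ k) →
      T.run (Qy.ev (Fin.init x)) =
        decide (f ((Fin.last _).removeNth x) = g ((Fin.last _).removeNth x)) := by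
  refine ⟨DT.one (.eq (Fin.last _) (Fin.last _) (fun A => if f (sn A k) = g (sn A k) then 1 else 0)
    (fun _ => 1)), by rw [DT.depth_one]; norm_num, fun x hx hk => ?_⟩
  rw [DT.run_one, rem_last]
  simp only [Qy.ev]
  rw [decide_eq_decide, rem_last]
  have h1 := (hfg (Fin.init x (Fin.last _)) (hk _)).2 (Fin.init (Fin.init x))
    (Fin.init (Fin.init x)) (initinit_lt hx) (initinit_lt hx)
  rw [sn, snoc_init] at h1
  rw [h1]
  by_cases h : f (sn (Fin.init (Fin.init x)) k) = g (sn (Fin.init (Fin.init x)) k)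
  · simp [h]
  · simp [h]

open Classical in
/-- the last vertex is not seen by `f` and the vertex number `j` is not seen by `g` -/
theorem conv_lc {s k : ℕ} (f g : (Fin (s + 2) → ℕ) → ℕ) (hff : ZI k f f) (hfg : ZI k f g)
    (j : Fin (s + 1)) :
    ∃ T : DT (Qy s) Bool, T.depth ≤ 2 ∧ ∀ x : Fin (s + 3) → ℕ, StrictMono x → (∀ a, x a ≤ k) →
      T.run (Qy.ev (Fin.init x)) =
        decide (f ((Fin.last _).removeNth x) = g (j.castSucc.castSucc.removeNth x)) := by
  let good : (Fin (s + 1) → ℕ) → (Fin (s + 1) → ℕ) → Prop := fun A B =>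
    (∀ a, B a < A (Fin.last s)) ∧ f (sn B (A (Fin.last s))) = g (sn A k)
  let lam : (Fin (s + 1) → ℕ) → ℕ := fun A =>
    if h : ∃ B, good A B then f (sn (Classical.choose h) k) + 1 else 0
  refine ⟨DT.one (.eq (Fin.last _) j.castSucc (fun B => f (sn B k) + 1) lam), by
    rw [DT.depth_one]; norm_num, fun x hx hk => ?_⟩
  rw [DT.run_one, rem_last, rem_castSucc]
  simp only [Qy.ev]
  rw [decide_eq_decide, rem_last]
  set B := Fin.init (Fin.init x) with hB
  set y := Fin.init x (Fin.last _) with hy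
  set A := j.castSucc.removeNth (Fin.init x) with hA
  have hAy : A (Fin.last s) = y := by
    rw [hA, rem_castSucc]
    exact Fin.snoc_last _ _
  have hBy : ∀ a, B a < y := initinit_lt hx
  have hyk : y ≤ k := hk _
  have hx1 : Fin.init x = sn B y := (snoc_init _).symm
  rw [(hfg _ (hk (Fin.last _))).1 (Fin.init x) A (init_lt_last hx) (rem_lt hx _)]
  rw [hx1]
  constructor
  · intro h
    simp only [lam] at h
    by_cases hex : ∃ B, good A B
    · rw [dif_pos hex] at h
      obtain ⟨g1, g2⟩ := Classical.choose_spec hex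
      rw [hAy] at g1 g2
      have h3 := ((hff y hyk).2 B (Classical.choose hex) hBy g1).2 (by omega)
      rw [h3, g2]
    · rw [dif_neg hex] at h
      omega
  · intro h
    have hex : ∃ B, good A B := ⟨B, by rw [hAy]; exact hBy, by rw [hAy]; exact h⟩
    simp only [lam]
    rw [dif_pos hex]
    obtain ⟨g1, g2⟩ := Classical.choose_spec hex
    rw [hAy] at g1 g2
    have h3 := ((hff y hyk).2 B (Classical.choose hex) hBy g1).1 (by rw [h, g2])
    rw [h3]

open Classical in
/-- the last vertex is not seen by `f` and the last but one is not seen by `g` -/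
theorem conv_lp {s k : ℕ} (f g : (Fin (s + 2) → ℕ) → ℕ) (hff : ZI k f f) (hfg : ZI k f g) :
    ∃ T : DT (Qy s) Bool, T.depth ≤ 2 ∧ ∀ x : Fin (s + 3) → ℕ, StrictMono x → (∀ a, x a ≤ k) →
      T.run (Qy.ev (Fin.init x)) =
        decide (f ((Fin.last _).removeNth x) = g ((Fin.last (s + 1)).castSucc.removeNth x)) := by
  let dead : (Fin (s + 1) → ℕ) → ℕ → Prop := fun B y =>
    (∀ a, B a < y) ∧ y < k ∧ f (sn B y) = f (sn B k)
  let tau : (Fin (s + 1) → ℕ) → ℕ := fun B => if h : ∃ y, dead B y then Nat.find h else k + 1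
  let sol : (Fin (s + 1) → ℕ) → ℕ → Prop := fun B y =>
    (∀ a, B a < y) ∧ y < k ∧ f (sn B y) = g (sn B k) ∧ f (sn B y) ≠ f (sn B k)
  let y0 : (Fin (s + 1) → ℕ) → ℕ := fun B =>
    if h : ∃ y, sol B y then Classical.choose h + 1 else 0
  refine ⟨.ask (.thr tau)
    (DT.one (.eq (Fin.last _) 0 y0 (fun A => A (Fin.last s) + 1)))
    (DT.one (.eq (Fin.last _) (Fin.last _)
      (fun A => if f (sn A k) = g (sn A k) then 1 else 0) (fun _ => 1))), ?_, fun x hx hk => ?_⟩
  · simp [DT.depth, DT.depth_one]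
  simp only [DT.run, DT.run_one, Qy.ev]
  rw [rem_last, rem_last, rem_castSucc, rem_last]
  set B := Fin.init (Fin.init x) with hB
  set y := Fin.init x (Fin.last _) with hy
  have hBy : ∀ a, B a < y := initinit_lt hx
  have hyz : y < x (Fin.last _) := init_lt_last hx _
  have hyk : y < k := lt_of_lt_of_le hyz (hk _)
  have hx1 : Fin.init x = sn B y := (snoc_init _).symm
  have h0 : (0 : Fin (s + 2)).removeNth (Fin.init x) (Fin.last s) = y := by
    rw [Fin.removeNth_apply, Fin.zero_succAbove, Fin.succ_last]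
  have e1 := (hfg _ (hk (Fin.last _))).1 (Fin.init x) B (init_lt_last hx)
    (fun a => (hBy a).trans hyz)
  -- two equal values
  have hmono : ∀ y₁ y₂, (∀ a, B a < y₁) → y₁ < y₂ → y₂ < k →
      (f (sn B y₁) = f (sn B y₂) ↔ f (sn B y₁) = f (sn B k)) := by
    intro y₁ y₂ h1 h2 h3
    exact (hff y₂ h3.le).1 (sn B y₁) B (by
      intro a
      refine Fin.lastCases ?_ (fun a => ?_) a
      · rw [sn, Fin.snoc_last]; exact h2
      · rw [sn, Fin.snoc_castSucc]; exact (h1 a).trans h2) (fun a => (h1 a).trans h2)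
  have htau : tau B ≤ y ↔ f (sn B y) = f (sn B k) := by
    simp only [tau]
    by_cases hex : ∃ y, dead B y
    · rw [dif_pos hex]
      constructor
      · intro h
        obtain ⟨g1, g2, g3⟩ := Nat.find_spec hex
        rcases Nat.lt_or_eq_of_le h with h' | h'
        · rw [← (hmono _ y g1 h' hyk).2 g3, g3]
        · rw [← h']
          exact g3
      · intro h
        exact Nat.find_min' hex ⟨hBy, hyk, h⟩
    · rw [dif_neg hex]
      constructor
      · intro h; omega
      · intro h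
        exact absurd ⟨y, hBy, hyk, h⟩ hex
  have goal2 : f (Fin.init x) = g (sn B (x (Fin.last _))) ↔ f (sn B y) = g (sn B k) := by
    rw [e1, hx1]
  by_cases ht : decide (tau B ≤ y) = true
  · rw [if_pos ht]
    have ht' := htau.1 (by simpa using ht)
    rw [decide_eq_decide, goal2, ht']
    by_cases h : f (sn B k) = g (sn B k)
    · simp [h]
    · simp [h]
  · rw [if_neg ht]
    have ht' : ¬ f (sn B y) = f (sn B k) := fun h => ht (by simpa using htau.2 h)
    rw [decide_eq_decide, goal2, h0]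
    constructor
    · intro h
      simp only [y0] at h
      by_cases hex : ∃ y, sol B y
      · rw [dif_pos hex] at h
        obtain ⟨-, -, g3, -⟩ := Classical.choose_spec hex
        rw [show Classical.choose hex = y by omega] at g3
        exact g3
      · rw [dif_neg hex] at h
        omega
    · intro h
      have hex : ∃ y, sol B y := ⟨y, hBy, hyk, h, ht'⟩
      simp only [y0]
      rw [dif_pos hex]
      obtain ⟨g1, g2, g3, g4⟩ := Classical.choose_spec hex
      rcases lt_trichotomy (Classical.choose hex) y with h5 | h5 | h5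
      · exact absurd ((hmono _ y g1 h5 hyk).1 (by rw [g3, h])) g4
      · rw [h5]
      · exact absurd ((hmono y _ hBy h5 g2).1 (by rw [g3, h])) ht'

/-- The equality queries. -/
theorem conv_eq {s k : ℕ} (f g : (Fin (s + 2) → ℕ) → ℕ) (hff : ZI k f f) (hfg : ZI k f g)
    (hgf : ZI k g f) (hgg : ZI k g g) (i j : Fin (s + 3)) :
    ∃ T : DT (Qy s) Bool, T.depth ≤ 2 ∧ ∀ x : Fin (s + 3) → ℕ, StrictMono x → (∀ a, x a ≤ k) →
      T.run (Qy.ev (Fin.init x)) = Qy.ev x (.eq i j f g) := by
  simp only [Qy.ev]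
  have hlc : ∀ (f g : (Fin (s + 2) → ℕ) → ℕ), ZI k f f → ZI k f g → ∀ j : Fin (s + 2),
      ∃ T : DT (Qy s) Bool, T.depth ≤ 2 ∧ ∀ x : Fin (s + 3) → ℕ, StrictMono x → (∀ a, x a ≤ k) →
      T.run (Qy.ev (Fin.init x)) =
        decide (f ((Fin.last _).removeNth x) = g (j.castSucc.removeNth x)) := by
    intro f g hff hfg j
    refine Fin.lastCases ?_ (fun j => ?_) j
    · exact conv_lp f g hff hfg
    · exact conv_lc f g hff hfg j
  refine Fin.lastCases ?_ (fun i => ?_) i
  · refine Fin.lastCases ?_ (fun j => ?_) j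
    · exact conv_ll f g hfg
    · exact hlc f g hff hfg j
  · refine Fin.lastCases ?_ (fun j => ?_) j
    · obtain ⟨T, h1, h2⟩ := hlc g f hgg hgf i
      refine ⟨T, h1, fun x hx hk => ?_⟩
      rw [h2 x hx hk, decide_eq_decide]
      exact eq_comm
    · exact conv_cc f g hfg i j

/-- The threshold queries. -/
theorem conv_thr {s k : ℕ} (R : (Fin (s + 2) → ℕ) → ℕ → Prop) (σ : (Fin (s + 1) → ℕ) → ℕ)
    (hσ : ∀ (B : Fin (s + 1) → ℕ) (y z : ℕ), (∀ a, B a < y) → y < z → z ≤ k →
      (R (sn B y) z ↔ y < σ B)) :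
    ∃ T : DT (Qy s) Bool, T.depth ≤ 2 ∧ ∀ x : Fin (s + 3) → ℕ, StrictMono x → (∀ a, x a ≤ k) →
      (T.run (Qy.ev (Fin.init x)) = true ↔ R (Fin.init x) (x (Fin.last _))) := by
  refine ⟨.ask (.thr σ) (.out true) (.out false), by simp [DT.depth], fun x hx hk => ?_⟩
  have hx1 : Fin.init x = sn (Fin.init (Fin.init x)) (Fin.init x (Fin.last _)) :=
    (snoc_init _).symm
  have h1 := hσ (Fin.init (Fin.init x)) (Fin.init x (Fin.last _)) (x (Fin.last _))
    (initinit_lt hx) (init_lt_last hx _) (hk _)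
  rw [← hx1] at h1
  have e1 : Qy.ev (Fin.init x) (.thr σ) =
      decide (σ (Fin.init (Fin.init x)) ≤ Fin.init x (Fin.last _)) := by
    simp only [Qy.ev]
    rw [rem_last]
  simp only [DT.run]
  rw [e1, h1]
  by_cases h : σ (Fin.init (Fin.init x)) ≤ Fin.init x (Fin.last _)
  · rw [if_pos (by simpa using h)]
    simpa using h
  · rw [if_neg (by simpa using h)]
    simpa using h

end Pool.Agent.T3h47.EQ
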