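import Pool.Agent.TH138.NF.Defs

/-!
# Colourings computed with equality queries
-/

set_option autoImplicit false

namespace Pool.Agent.T3h47.EQ

/-- A decision tree for the vertices `x 0 < x 1 < … < x r` with outputs in `κ`. At a node
`ask i j f g P Q` it is asked whether `f y = g z`, where `y` is the tuple of all the vertices except
`x i`, `z` is the tuple of all the vertices except `x j`, and `f`, `g` are arbitrary functions. At a
node `thr τ P Q` it is asked whether `τ (x 0, …, x (r - 1)) ≤ x r`, with an arbitrary function `τ`.
The tree is continued with `P` if the answer is no and with `Q` if it is yes. -/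
inductive Tree (κ : Type) (r : ℕ) : Type
  | out (a : κ) : Tree κ r
  | ask (i j : Fin (r + 1)) (f g : (Fin r → ℕ) → ℕ) (P Q : Tree κ r) : Tree κ r
  | thr (τ : (Fin r → ℕ) → ℕ) (P Q : Tree κ r) : Tree κ r

variable {κ : Type} {r : ℕ}

/-- The output of the tree if the vertices are `x 0, …, x r`. -/
def Tree.run : Tree κ r → (Fin (r + 1) → ℕ) → κ
  | .out a, _ => a
  | .ask i j f g P Q, x => if f (i.removeNth x) = g (j.removeNth x) then Q.run x else P.run x
  | .thr τ P Q, x => if τ ((Fin.last r).removeNth x) ≤ x (Fin.last r) then Q.run x else P.run x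

/-- The number of queries in the worst case. -/
def Tree.queries : Tree κ r → ℕ
  | .out _ => 0
  | .ask _ _ _ _ P Q => max P.queries Q.queries + 1
  | .thr _ P Q => max P.queries Q.queries + 1

/-- The tree computes the colours of the `(r + 1)`-subsets of `{0, …, N - 1}`, the vertices
being listed in increasing order. -/
def Computes (P : Tree κ r) (N : ℕ) (c : Finset ℕ → κ) : Prop :=
  ∀ x : Fin (r + 1) → ℕ, StrictMono x → (∀ i, x i < N) → P.run x = c (Finset.univ.image x)

end Pool.Agent.T3h47.EQ
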