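import Pool.Agent.T3h47.EQ.Rich

/-!
# Pairs: homogeneous sets for any number of colours
-/

set_option autoImplicit false

namespace Pool.Agent.T3h47.EQ

open Finset

variable {κ : Type}

/-- `V` contains `n` elements all pairs of which have colour `c`. -/
def Clk (f : ℕ → ℕ → κ) (c : κ) (n : ℕ) (V : Finset ℕ) : Prop :=
  ∃ S ⊆ V, S.card = n ∧ ∀ x ∈ S, ∀ y ∈ S, x < y → f x y = c

theorem Clk.mono {f : ℕ → ℕ → κ} {c : κ} {n : ℕ} {V W : Finset ℕ} (h : Clk f c n V)
    (hVW : V ⊆ W) : Clk f c n W := by
  obtain ⟨S, hS, h1, h2⟩ := h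
  exact ⟨S, hS.trans hVW, h1, h2⟩

theorem Clk.le {f : ℕ → ℕ → κ} {c : κ} {m n : ℕ} {V : Finset ℕ} (h : Clk f c n V)
    (hmn : m ≤ n) : Clk f c m V := by
  obtain ⟨S, hS, h1, h2⟩ := h
  obtain ⟨T, hT, hTc⟩ := exists_subset_card_eq (s := S) (n := m) (by omega)
  exact ⟨T, hT.trans hS, hTc, fun x hx y hy => h2 x (hT hx) y (hT hy)⟩

theorem Clk.zero (f : ℕ → ℕ → κ) (c : κ) (V : Finset ℕ) : Clk f c 0 V :=
  ⟨∅, empty_subset _, rfl, by simp⟩

theorem Clk.single (f : ℕ → ℕ → κ) (c : κ) (v : ℕ) : Clk f c 1 {v} :=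
  ⟨{v}, Subset.rfl, by simp, by
    intro x hx y hy hxy
    rw [mem_singleton.1 hx, mem_singleton.1 hy] at hxy
    exact absurd hxy (lt_irrefl _)⟩

theorem Clk.add {f : ℕ → ℕ → κ} {c : κ} {m n : ℕ} {X Y V : Finset ℕ} (hX : Clk f c m X)
    (hY : Clk f c n Y) (hXV : X ⊆ V) (hYV : Y ⊆ V) (hlt : ∀ x ∈ X, ∀ y ∈ Y, x < y)
    (hc : ∀ x ∈ X, ∀ y ∈ Y, f x y = c) : Clk f c (m + n) V := by
  classical
  obtain ⟨S, hS, hSc, hSh⟩ := hX
  obtain ⟨T, hT, hTc, hTh⟩ := hY
  refine ⟨S ∪ T, union_subset (hS.trans hXV) (hT.trans hYV), ?_, ?_⟩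
  · rw [card_union_of_disjoint, hSc, hTc]
    rw [disjoint_left]
    intro x hx hx'
    exact lt_irrefl _ (hlt x (hS hx) x (hT hx'))
  · intro x hx y hy hxy
    rcases mem_union.1 hx with hx | hx <;> rcases mem_union.1 hy with hy | hy
    · exact hSh x hx y hy hxy
    · exact hc x (hS hx) y (hT hy)
    · exact absurd (hlt y (hS hy) x (hT hx)) (by omega)
    · exact hTh x hx y hy hxy

open Classical in
theorem cnt_eq_sum (g : ℕ → ℕ → Prop) (A B : Finset ℕ) :
    cnt g A B = ∑ x ∈ A, (B.filter (fun y => g x y)).card := by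
  unfold cnt
  rw [card_filter, sum_product]
  apply sum_congr rfl
  intro x _
  rw [card_filter]

theorem cnt_zero {g : ℕ → ℕ → Prop} {A B : Finset ℕ} (h : ∀ x ∈ A, ∀ y ∈ B, ¬ g x y) :
    cnt g A B = 0 := by
  classical
  unfold cnt
  rw [card_eq_zero, filter_eq_empty_iff]
  intro p hp
  rw [mem_product] at hp
  exact h _ hp.1 _ hp.2

theorem cnt_deg (g : ℕ → ℕ → Prop) [∀ x, DecidablePred (g x)] (A B : Finset ℕ) (m k : ℕ)
    (h : ∀ x ∈ A, m * (B.filter (fun y => g x y)).card ≤ k) : m * cnt g A B ≤ A.card * k := by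
  rw [cnt_eq_sum, mul_sum]
  refine (sum_le_sum (f := _) (g := fun _ => k) ?_).trans (by rw [sum_const, smul_eq_mul])
  intro x hx
  refine le_trans (le_of_eq ?_) (h x hx)
  congr 2
  ext y
  simp

/-- Without large cliques in the colours of `R` there is a large subset with few such pairs. -/
theorem sparse [DecidableEq κ] (f : ℕ → ℕ → κ) (R : Finset κ) (m q : ℕ)
    (hq : R.card ≤ q) : ∀ (j : ℕ) (t : κ → ℕ) (U : Finset ℕ), (∑ c ∈ R, t c) ≤ j →
    (∀ c ∈ R, ¬ Clk f c (t c) U) → ∃ U' ⊆ U, U.card ≤ (m * q + 1) ^ j * U'.card ∧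
      m * cnt (fun x y => x < y ∧ f x y ∈ R) U' U' ≤ U'.card ^ 2 := by
  classical
  have hpos : ∀ c ∈ R, ∀ (t : κ → ℕ) (U : Finset ℕ), ¬ Clk f c (t c) U → 1 ≤ t c := by
    intro c _ t U h
    by_contra hcon
    apply h
    rw [show t c = 0 by omega]
    exact Clk.zero _ _ _
  intro j
  induction j with
  | zero =>
    intro t U hj hU
    refine ⟨U, Subset.rfl, by simp, ?_⟩
    have hR : R = ∅ := by
      by_contra hne
      obtain ⟨c, hc⟩ := nonempty_iff_ne_empty.2 hne
      have h1 := hpos c hc t U (hU c hc)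
      have h2 : t c ≤ ∑ c ∈ R, t c := single_le_sum (fun _ _ => Nat.zero_le _) hc
      omega
    have h0 : cnt (fun x y => x < y ∧ f x y ∈ R) U U = 0 := by
      apply cnt_zero
      intro x _ y _ h
      rw [hR] at h
      simp at h
    rw [h0]
    simp
  | succ j ih =>
    intro t U hj hU
    by_cases hsp : m * cnt (fun x y => x < y ∧ f x y ∈ R) U U ≤ U.card ^ 2
    · refine ⟨U, Subset.rfl, ?_, hsp⟩
      exact Nat.le_mul_of_pos_left _ (Nat.pow_pos (by omega))
    · push Not at hsp
      -- a vertex of large degree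
      have hx : ∃ x ∈ U, U.card < m * (U.filter (fun y => x < y ∧ f x y ∈ R)).card := by
        by_contra hcon
        push Not at hcon
        have h1 := cnt_deg (fun x y => x < y ∧ f x y ∈ R) U U m U.card hcon
        rw [← sq] at h1
        omega
      obtain ⟨x, hxU, hx⟩ := hx
      -- the most frequent colour
      have hc : ∃ c ∈ R, U.card < (m * q + 1) * (U.filter (fun y => x < y ∧ f x y = c)).card := by
        by_contra hcon
        push Not at hcon
        have h1 : (U.filter (fun y => x < y ∧ f x y ∈ R)).card ≤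
            ∑ c ∈ R, (U.filter (fun y => x < y ∧ f x y = c)).card := by
          refine le_trans (card_le_card ?_) card_biUnion_le
          intro y hy
          rw [mem_filter] at hy
          rw [mem_biUnion]
          exact ⟨f x y, hy.2.2, mem_filter.2 ⟨hy.1, hy.2.1, rfl⟩⟩
        have h2 : (m * q + 1) * (U.filter (fun y => x < y ∧ f x y ∈ R)).card ≤ q * U.card := by
          calc (m * q + 1) * (U.filter (fun y => x < y ∧ f x y ∈ R)).card ≤
                (m * q + 1) * ∑ c ∈ R, (U.filter (fun y => x < y ∧ f x y = c)).card :=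
                Nat.mul_le_mul_left _ h1
            _ = ∑ c ∈ R, (m * q + 1) * (U.filter (fun y => x < y ∧ f x y = c)).card := by
                rw [mul_sum]
            _ ≤ ∑ c ∈ R, U.card := sum_le_sum hcon
            _ = R.card * U.card := by rw [sum_const, smul_eq_mul]
            _ ≤ q * U.card := Nat.mul_le_mul_right _ hq
        have h3 : q * U.card ≤ q * (m * (U.filter (fun y => x < y ∧ f x y ∈ R)).card) :=
          Nat.mul_le_mul_left _ hx.le
        have h4 : 1 ≤ (U.filter (fun y => x < y ∧ f x y ∈ R)).card := by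
          by_contra h0
          rw [show (U.filter (fun y => x < y ∧ f x y ∈ R)).card = 0 by omega] at hx
          omega
        nlinarith
      obtain ⟨c, hcR, hc⟩ := hc
      set U1 := U.filter (fun y => x < y ∧ f x y = c) with hU1
      have htc := hpos c hcR t U (hU c hcR)
      have hsub : U1 ⊆ U := filter_subset _ _
      obtain ⟨U', hU', h1, h2⟩ := ih (Function.update t c (t c - 1)) U1 (by
          have h3 : (∑ c' ∈ R, Function.update t c (t c - 1) c') + 1 = ∑ c' ∈ R, t c' := by
            rw [← add_sum_erase _ _ hcR, ← add_sum_erase _ _ hcR]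
            have h4 : ∑ c' ∈ R.erase c, Function.update t c (t c - 1) c' =
                ∑ c' ∈ R.erase c, t c' := by
              apply sum_congr rfl
              intro c' hc'
              rw [Function.update_of_ne (mem_erase.1 hc').1]
            rw [h4, Function.update_self]
            omega
          omega) (by
          intro c' hc' hcl
          by_cases he : c' = c
          · subst he
            rw [Function.update_self] at hcl
            apply hU c' hc'
            have h3 := Clk.add (V := U) (Clk.single f c' x) hcl (singleton_subset_iff.2 hxU) hsub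
              (by
                intro u hu y hy
                rw [mem_singleton.1 hu]
                exact (mem_filter.1 hy).2.1) (by
                intro u hu y hy
                rw [mem_singleton.1 hu]
                exact (mem_filter.1 hy).2.2)
            rwa [show 1 + (t c' - 1) = t c' by omega] at h3
          · rw [Function.update_of_ne he] at hcl
            exact hU c' hc' (hcl.mono hsub))
      refine ⟨U', hU'.trans hsub, ?_, h2⟩
      calc U.card ≤ (m * q + 1) * U1.card := hc.le
        _ ≤ (m * q + 1) * ((m * q + 1) ^ j * U'.card) := Nat.mul_le_mul_left _ h1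
        _ = _ := by ring

/-- cutting a set in the middle -/
theorem halves (U : Finset ℕ) (hU : 2 ≤ U.card) : ∃ X ⊆ U, ∃ Y ⊆ U, (∀ x ∈ X, ∀ y ∈ Y, x < y) ∧
    U.card ≤ 3 * X.card ∧ U.card ≤ 3 * Y.card := by
  classical
  have hne : U.Nonempty := card_pos.1 (by omega)
  have hex : ∃ p, U.card / 2 ≤ (U.filter (fun x => x ≤ p)).card := by
    refine ⟨U.max' hne, ?_⟩
    rw [filter_true_of_mem (fun w hw => U.le_max' w hw)]
    exact Nat.div_le_self _ _
  obtain ⟨p, h1, h2⟩ : ∃ p, U.card / 2 ≤ (U.filter (fun x => x ≤ p)).card ∧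
      (U.filter (fun x => x < p)).card < U.card / 2 := by
    refine ⟨Nat.find hex, Nat.find_spec hex, ?_⟩
    rcases Nat.eq_zero_or_pos (Nat.find hex) with h | h
    · rw [h]
      simp only [not_lt_zero, filter_false, card_empty]
      omega
    · have := Nat.find_min hex (m := Nat.find hex - 1) (by omega)
      push Not at this
      refine lt_of_le_of_lt ?_ this
      apply card_le_card
      intro w hw
      rw [mem_filter] at hw ⊢
      exact ⟨hw.1, by omega⟩
  have h3 : (U.filter (fun x => x ≤ p)).card ≤ (U.filter (fun x => x < p)).card + 1 := by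
    refine (card_le_card (t := insert p (U.filter (fun x => x < p))) ?_).trans
      (card_insert_le _ _)
    intro w hw
    rw [mem_filter] at hw
    rw [mem_insert, mem_filter]
    rcases eq_or_ne w p with h | h
    · exact Or.inl h
    · exact Or.inr ⟨hw.1, by omega⟩
  have h4 := card_filter_add_card_filter_not (s := U) (fun x => x ≤ p)
  refine ⟨U.filter (fun x => x ≤ p), filter_subset _ _, U.filter (fun x => ¬ x ≤ p),
    filter_subset _ _, ?_, ?_, ?_⟩
  · intro x hx y hy
    rw [mem_filter] at hx hy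
    omega
  · omega
  · omega

/-- one factor of the bound -/
def Z (q d a : ℕ) : ℕ := 48 * 18 ^ (4 * d) * (32 * q + 1) ^ (q * a)

theorem pairs_q [Fintype κ] [DecidableEq κ] (q : ℕ) (hq : Fintype.card κ ≤ q)
    (P : DT (Qy 0) κ) (d : ℕ) (hd : P.depth ≤ d) (a : ℕ) :
    ∀ (j : ℕ) (l : κ → ℕ) (U : Finset ℕ), ∑ c, l c ≤ j → (Z q d a) ^ (j + 1) ≤ U.card →
      ∃ c, Clk (fun x y => P.run (Qy.ev ![x, y])) c (2 ^ l c * a) U := by
  classical
  set f : ℕ → ℕ → κ := fun x y => P.run (Qy.ev ![x, y]) with hf
  have hZ1 : 1 ≤ Z q d a := Nat.mul_pos (by positivity) (by positivity)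
  have main : ∀ (j : ℕ) (l : κ → ℕ) (U : Finset ℕ), ∑ c, l c ≤ j →
      (Z q d a) ^ (j + 1) ≤ U.card → (∀ c, ¬ Clk f c (2 ^ l c * a) U) →
      ∃ c, 1 ≤ l c ∧ ∃ A ⊆ U, ∃ B ⊆ U, (∀ x ∈ A, ∀ y ∈ B, x < y) ∧
        (∀ x ∈ A, ∀ y ∈ B, f x y = c) ∧ (Z q d a) ^ j ≤ A.card ∧ (Z q d a) ^ j ≤ B.card := by
    intro j l U hj hU hno
    set R : Finset κ := univ.filter (fun c => l c = 0) with hR
    have hRc : R.card ≤ q := (card_filter_le _ _).trans (by rw [card_univ]; exact hq)
    obtain ⟨U', hU', h1, h2⟩ := sparse f R 32 q hRc (q * a) (fun _ => a) U (by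
        rw [sum_const, smul_eq_mul]
        exact Nat.mul_le_mul_right _ hRc) (by
        intro c hc
        have h3 := hno c
        rw [(mem_filter.1 hc).2, pow_zero, one_mul] at h3
        exact h3)
    set C := 16 * 18 ^ (4 * d) with hC
    have hC1 : 1 ≤ C := by rw [hC]; exact Nat.mul_pos (by norm_num) (by positivity)
    have hE : Z q d a = 3 * C * (32 * q + 1) ^ (q * a) := by
      rw [Z, hC]; ring
    have hU'c : 3 * C * (Z q d a) ^ j ≤ U'.card := by
      have h3 : (32 * q + 1) ^ (q * a) * (3 * C * (Z q d a) ^ j) ≤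
          (32 * q + 1) ^ (q * a) * U'.card := by
        refine le_trans (le_of_eq ?_) (hU.trans h1)
        rw [pow_succ, hE]
        ring
      exact Nat.le_of_mul_le_mul_left h3 (by positivity)
    have hZj : 1 ≤ (Z q d a) ^ j := Nat.one_le_pow _ _ hZ1
    have hU'2 : 2 ≤ U'.card := by
      refine le_trans ?_ hU'c
      nlinarith [Nat.mul_le_mul hC1 hZj]
    obtain ⟨X, hX, Y, hY, hlt, h4, h5⟩ := halves U' hU'2
    have hX0 : 0 < X.card := by omega
    have hY0 : 0 < Y.card := by omega
    -- most pairs have a good colour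
    have h6 : X.card * Y.card < 2 * cnt (fun x y => ¬ (P.run (Qy.ev ![x, y]) ∈ R)) X Y := by
      have h7 := cnt_compl (fun x y => P.run (Qy.ev ![x, y]) ∈ R) X Y
      have h8 : cnt (fun x y => P.run (Qy.ev ![x, y]) ∈ R) X Y ≤
          cnt (fun x y => x < y ∧ f x y ∈ R) U' U' := by
        rw [cnt_congr (g' := fun x y => x < y ∧ f x y ∈ R)
          (fun x hx y hy => ⟨fun h => ⟨hlt x hx y hy, h⟩, fun h => h.2⟩)]
        exact cnt_mono hX hY
      have h9 : U'.card ^ 2 ≤ 9 * (X.card * Y.card) := by
        calc U'.card ^ 2 = U'.card * U'.card := sq _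
          _ ≤ (3 * X.card) * (3 * Y.card) := Nat.mul_le_mul h4 h5
          _ = _ := by ring
      have h10 : 0 < X.card * Y.card := Nat.mul_pos hX0 hY0
      omega
    obtain ⟨A, hA, B, hB, c, hc, hAB, hcard⟩ := rich (fun c => ¬ c ∈ R) P d hd X Y h6
    have hAc : X.card ≤ C * A.card := by
      have h7 : X.card * Y.card ≤ (C * A.card) * Y.card := by
        calc X.card * Y.card ≤ C * (A.card * B.card) := hcard
          _ ≤ C * (A.card * Y.card) := by gcongr
          _ = _ := by ring
      exact Nat.le_of_mul_le_mul_right h7 hY0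
    have hBc : Y.card ≤ C * B.card := by
      have h7 : X.card * Y.card ≤ X.card * (C * B.card) := by
        calc X.card * Y.card ≤ C * (A.card * B.card) := hcard
          _ ≤ C * (X.card * B.card) := by gcongr
          _ = _ := by ring
      exact Nat.le_of_mul_le_mul_left h7 hX0
    have hlc : 1 ≤ l c := by
      by_contra h0
      apply hc
      rw [hR, mem_filter]
      exact ⟨mem_univ _, by omega⟩
    refine ⟨c, hlc, A, (hA.trans hX).trans hU', B, (hB.trans hY).trans hU',
      fun x hx y hy => hlt x (hA hx) y (hB hy), hAB, ?_, ?_⟩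
    · have h7 : 3 * C * (Z q d a) ^ j ≤ 3 * C * A.card := by
        calc _ ≤ U'.card := hU'c
          _ ≤ 3 * X.card := h4
          _ ≤ 3 * (C * A.card) := Nat.mul_le_mul_left _ hAc
          _ = _ := by ring
      exact Nat.le_of_mul_le_mul_left h7 (by omega)
    · have h7 : 3 * C * (Z q d a) ^ j ≤ 3 * C * B.card := by
        calc _ ≤ U'.card := hU'c
          _ ≤ 3 * Y.card := h5
          _ ≤ 3 * (C * B.card) := Nat.mul_le_mul_left _ hBc
          _ = _ := by ring
      exact Nat.le_of_mul_le_mul_left h7 (by omega)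
  intro j
  induction j with
  | zero =>
    intro l U hj hU
    by_contra hcon
    push Not at hcon
    obtain ⟨c, hc, -⟩ := main 0 l U hj hU hcon
    have h2 : l c ≤ ∑ c, l c := single_le_sum (fun _ _ => Nat.zero_le _) (mem_univ c)
    omega
  | succ j ih =>
    intro l U hj hU
    by_contra hcon
    push Not at hcon
    obtain ⟨c, hc, A, hA, B, hB, hlt, hAB, hAc, hBc⟩ := main (j + 1) l U hj hU hcon
    have hsum : ∑ c', Function.update l c (l c - 1) c' ≤ j := by
      have h3 : (∑ c', Function.update l c (l c - 1) c') + 1 = ∑ c', l c' := by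
        rw [← add_sum_erase _ _ (mem_univ c), ← add_sum_erase _ _ (mem_univ c)]
        have h4 : ∑ c' ∈ univ.erase c, Function.update l c (l c - 1) c' =
            ∑ c' ∈ univ.erase c, l c' := by
          apply sum_congr rfl
          intro c' hc'
          rw [Function.update_of_ne (mem_erase.1 hc').1]
        rw [h4, Function.update_self]
        omega
      omega
    have sub : ∀ W ⊆ U, (Z q d a) ^ (j + 1) ≤ W.card → Clk f c (2 ^ (l c - 1) * a) W := by
      intro W hW hWc
      obtain ⟨c', hc'⟩ := ih (Function.update l c (l c - 1)) W hsum hWc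
      by_cases he : c' = c
      · subst he
        rwa [Function.update_self] at hc'
      · rw [Function.update_of_ne he] at hc'
        exact absurd (hc'.mono hW) (hcon c')
    have h5 := Clk.add (V := U) (sub A hA hAc) (sub B hB hBc) hA hB hlt hAB
    apply hcon c
    have e : 2 ^ (l c - 1) * a + 2 ^ (l c - 1) * a = 2 ^ l c * a := by
      obtain ⟨k, hk⟩ : ∃ k, l c = k + 1 := ⟨l c - 1, by omega⟩
      rw [hk, Nat.add_sub_cancel, pow_succ]
      ring
    rwa [e] at h5

end Pool.Agent.T3h47.EQ
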