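import Pool.Agent.T3h47.EQ.Step
import Pool.Agent.T3h47.EQ.Pairs
import Pool.Agent.TH138.NF.Asym

/-!
# The upper bound
-/

set_option autoImplicit false

namespace Pool.Agent.T3h47.EQ

open Finset Pool.Agent.TH138.NF

variable {κ : Type}

/-- All increasing tuples in `S` get the same output. -/
def HomT {s : ℕ} (P : DT (Qy s) κ) (S : Finset ℕ) : Prop :=
  ∀ x y : Fin (s + 2) → ℕ, StrictMono x → StrictMono y → (∀ i, x i ∈ S) → (∀ i, y i ∈ S) →
    P.run (Qy.ev x) = P.run (Qy.ev y)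

/-- The bound: `BB q a L s b` vertices for uniformity `s + 2`, depth `b` and `q` colours give
homogeneous sets of size `2 ^ L * a`. -/
def BB (q a L : ℕ) : ℕ → ℕ → ℕ
  | 0, b => (Z q b a) ^ (q * L + 1)
  | s + 1, b => cost s b (BB q a L s (2 * b))

theorem upper [Fintype κ] [DecidableEq κ] (q : ℕ) (hq : Fintype.card κ ≤ q) (n a L : ℕ)
    (hn : n ≤ 2 ^ L * a) : ∀ (s b : ℕ) (P : DT (Qy s) κ) (V : Finset ℕ), P.depth ≤ b →
    BB q a L s b ≤ V.card → ∃ S ⊆ V, S.card = n ∧ HomT P S := by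
  classical
  intro s
  induction s with
  | zero =>
    intro b P V hb hV
    obtain ⟨c, hc⟩ := pairs_q q hq P b hb a (q * L) (fun _ => L) V (by
      rw [sum_const, smul_eq_mul, card_univ]
      exact Nat.mul_le_mul_right _ hq) hV
    obtain ⟨S, hS, hSc, hSh⟩ := hc.le hn
    refine ⟨S, hS, hSc, fun x y hx hy hxS hyS => ?_⟩
    have key : ∀ x : Fin 2 → ℕ, StrictMono x → (∀ i, x i ∈ S) → P.run (Qy.ev x) = c := by
      intro x hx hxS
      have h1 := hSh (x 0) (hxS 0) (x 1) (hxS 1) (hx (by simp))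
      have h2 : ![x 0, x 1] = x := by
        funext i
        fin_cases i <;> rfl
      simp only at h1
      rwa [h2] at h1
    rw [key x hx hxS, key y hy hyS]
  | succ s ih =>
    intro b P V hb hV
    set k := BB q a L s (2 * b) with hk
    obtain ⟨v, P', hvV, hvm, hd, hrun⟩ := step P b k hb V hV
    obtain ⟨S', hS', hc', hh⟩ := ih (2 * b) P' (range k) hd (by rw [card_range])
    have hlt : ∀ i ∈ S', i < k := fun i hi => mem_range.1 (hS' hi)
    have hinj : Set.InjOn v (S' : Set ℕ) := by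
      intro i hi j hj hij
      rw [mem_coe] at hi hj
      rcases lt_trichotomy i j with h | h | h
      · exact absurd hij (hvm i j h (hlt j hj).le).ne
      · exact h
      · exact absurd hij (hvm j i h (hlt i hi).le).ne'
    refine ⟨S'.image v, ?_, ?_, ?_⟩
    · intro u hu
      obtain ⟨i, hi, rfl⟩ := mem_image.1 hu
      exact hvV i (hlt i hi).le
    · rw [card_image_of_injOn hinj, hc']
    · have key : ∀ x : Fin (s + 3) → ℕ, StrictMono x → (∀ a, x a ∈ S'.image v) →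
          ∃ i : Fin (s + 2) → ℕ, StrictMono i ∧ (∀ a, i a ∈ S') ∧
            P.run (Qy.ev x) = P'.run (Qy.ev i) := by
        intro x hx hxS
        have hch : ∀ a, ∃ i ∈ S', v i = x a := fun a => by
          simpa using mem_image.1 (hxS a)
        choose i hi hvi using hch
        have him : StrictMono i := by
          intro a a' haa'
          by_contra hle
          push Not at hle
          have h3 := hx haa'
          rw [← hvi a, ← hvi a'] at h3
          rcases Nat.lt_or_eq_of_le hle with h | h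
          · exact absurd (hvm _ _ h (hlt _ (hi a)).le) (not_lt.2 h3.le)
          · rw [h] at h3; exact lt_irrefl _ h3
        refine ⟨Fin.init i, fun a a' h => him (by simpa using h), fun a => hi _, ?_⟩
        rw [← hrun i him (fun a => (hlt _ (hi a)).le)]
        congr 2
        funext a
        rw [hvi]
      intro x y hx hy hxS hyS
      obtain ⟨i, hi1, hi2, hi3⟩ := key x hx hxS
      obtain ⟨i', hi1', hi2', hi3'⟩ := key y hy hyS
      rw [hi3, hi3']
      exact hh i i' hi1 hi1' hi2 hi2'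

theorem Z_le (q d a : ℕ) : Z q d a ≤ 2 ^ (6 + 20 * d + (q + 5) * (q * a)) := by
  have h1 : 18 ^ (4 * d) ≤ 2 ^ (20 * d) := by
    calc 18 ^ (4 * d) ≤ (2 ^ 5) ^ (4 * d) := Nat.pow_le_pow_left (by norm_num) _
      _ = 2 ^ (20 * d) := by rw [← pow_mul]; ring_nf
  have h2 : 32 * q + 1 ≤ 2 ^ (q + 5) := by
    have : q + 1 ≤ 2 ^ q := Nat.lt_two_pow_self
    rw [pow_add]
    omega
  calc Z q d a ≤ 2 ^ 6 * 2 ^ (20 * d) * (2 ^ (q + 5)) ^ (q * a) := by
        unfold Z
        gcongr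
        norm_num
    _ = _ := by rw [← pow_mul, ← pow_add, ← pow_add]

theorem cost_le (s b k : ℕ) (hk : 1 ≤ k) :
    cost s b k ≤ 2 ^ (2 ^ (2 * b + 2 * s + 8) * k ^ (2 * s + 4)) := by
  have h1 : (4 * 2 ^ M1 s b k) ^ (k + 1) = 2 ^ ((2 + M1 s b k) * (k + 1)) := by
    rw [pow_mul, pow_add 2 2, show (2 : ℕ) ^ 2 = 4 by norm_num]
  have h2 : (4 * M2 s b k) ^ M2 s b k ≤ 2 ^ ((2 + M2 s b k) * M2 s b k) := by
    rw [pow_mul]
    apply Nat.pow_le_pow_left
    rw [pow_add]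
    have := (Nat.lt_two_pow_self (n := M2 s b k)).le
    norm_num
    exact this
  have h3 : cost s b k ≤ 2 ^ ((2 + M1 s b k) * (k + 1) + (2 + M2 s b k) * M2 s b k) := by
    rw [pow_add]
    unfold cost
    rw [h1]
    exact Nat.mul_le_mul_left _ h2
  refine h3.trans (Nat.pow_le_pow_right (by norm_num) ?_)
  set K := k + 1 with hK
  have hK1 : 1 ≤ K := by omega
  have hb1 : 1 ≤ 2 ^ b := Nat.one_le_two_pow
  have e1 : M1 s b k = 8 * (2 ^ b * 2 ^ b) * K ^ (2 * s + 3) := by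
    unfold M1
    ring
  have e2 : M2 s b k = 2 ^ b * K ^ (s + 1) := rfl
  have p1 : 1 ≤ K ^ (2 * s + 3) := Nat.one_le_pow _ _ hK1
  have p2 : 1 ≤ K ^ (s + 1) := Nat.one_le_pow _ _ hK1
  have f1 : (2 + M1 s b k) * K ≤ 10 * (2 ^ b * 2 ^ b) * K ^ (2 * s + 4) := by
    have : 2 + M1 s b k ≤ 10 * (2 ^ b * 2 ^ b) * K ^ (2 * s + 3) := by
      rw [e1]
      have : 1 ≤ (2 ^ b * 2 ^ b) * K ^ (2 * s + 3) := Nat.mul_pos (by positivity) (by positivity)
      nlinarith
    calc (2 + M1 s b k) * K ≤ (10 * (2 ^ b * 2 ^ b) * K ^ (2 * s + 3)) * K :=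
          Nat.mul_le_mul_right _ this
      _ = _ := by ring
  have f2 : (2 + M2 s b k) * M2 s b k ≤ 3 * (2 ^ b * 2 ^ b) * K ^ (2 * s + 4) := by
    have g1 : 1 ≤ M2 s b k := by rw [e2]; exact Nat.mul_pos (by positivity) (by positivity)
    calc (2 + M2 s b k) * M2 s b k ≤ (3 * M2 s b k) * M2 s b k := by
          apply Nat.mul_le_mul_right
          omega
      _ = 3 * (2 ^ b * 2 ^ b) * (K ^ (s + 1) * K ^ (s + 1)) := by rw [e2]; ring
      _ ≤ 3 * (2 ^ b * 2 ^ b) * K ^ (2 * s + 4) := by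
          apply Nat.mul_le_mul_left
          rw [← pow_add]
          exact Nat.pow_le_pow_right hK1 (by omega)
  have f3 : K ^ (2 * s + 4) ≤ 2 ^ (2 * s + 4) * k ^ (2 * s + 4) := by
    rw [← mul_pow]
    exact Nat.pow_le_pow_left (by omega) _
  calc (2 + M1 s b k) * K + (2 + M2 s b k) * M2 s b k ≤
        10 * (2 ^ b * 2 ^ b) * K ^ (2 * s + 4) + 3 * (2 ^ b * 2 ^ b) * K ^ (2 * s + 4) :=
        Nat.add_le_add f1 f2
    _ ≤ 16 * (2 ^ b * 2 ^ b) * K ^ (2 * s + 4) := by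
        have : 0 ≤ (2 ^ b * 2 ^ b) * K ^ (2 * s + 4) := Nat.zero_le _
        nlinarith
    _ ≤ 16 * (2 ^ b * 2 ^ b) * (2 ^ (2 * s + 4) * k ^ (2 * s + 4)) := Nat.mul_le_mul_left _ f3
    _ = 2 ^ (2 * b + 2 * s + 8) * k ^ (2 * s + 4) := by
        rw [show 2 * b + 2 * s + 8 = 4 + (b + b) + (2 * s + 4) by ring, pow_add, pow_add, pow_add]
        norm_num
        ring

theorem Z_pos (q d a : ℕ) : 1 ≤ Z q d a := Nat.mul_pos (by positivity) (by positivity)

theorem cost_pos (s b k : ℕ) : 1 ≤ cost s b k := by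
  unfold cost
  apply Nat.mul_pos (by positivity)
  rcases Nat.eq_zero_or_pos (M2 s b k) with h | h
  · rw [h]; simp
  · positivity

theorem BB_pos (q a L s b : ℕ) : 1 ≤ BB q a L s b := by
  cases s with
  | zero => exact Nat.one_le_pow _ _ (Z_pos _ _ _)
  | succ s => exact cost_pos _ _ _

theorem small (q : ℕ) (ε : ℝ) (hε : 0 < ε) :
    ∃ L : ℕ, ((q : ℝ) * L + 1) * ((q + 5) * q) / 2 ^ L ≤ ε := by
  have h1 : Filter.Tendsto (fun L : ℕ => ((L : ℝ)) / 2 ^ L) Filter.atTop (nhds 0) := by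
    have := tendsto_pow_const_div_const_pow_of_one_lt 1 (r := (2 : ℝ)) (by norm_num)
    simpa using this
  have h2 : Filter.Tendsto (fun L : ℕ => ((q : ℝ) + 1) * ((q + 5) * q) * ((L : ℝ) / 2 ^ L))
      Filter.atTop (nhds 0) := by
    have := h1.const_mul (((q : ℝ) + 1) * ((q + 5) * q))
    simpa using this
  have h3 := (h2.eventually (gt_mem_nhds hε)).and (Filter.eventually_ge_atTop 1)
  obtain ⟨L, hL, hL1⟩ := h3.exists
  refine ⟨L, le_trans ?_ hL.le⟩
  rw [← mul_div_assoc]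
  apply div_le_div_of_nonneg_right _ (by positivity)
  have hL' : (1 : ℝ) ≤ L := by exact_mod_cast hL1
  have hq0 : (0 : ℝ) ≤ q := Nat.cast_nonneg q
  have h4 : (q : ℝ) * L + 1 ≤ (q + 1) * L := by nlinarith
  calc ((q : ℝ) * L + 1) * ((q + 5) * q) ≤ ((q + 1) * L) * ((q + 5) * q) :=
        mul_le_mul_of_nonneg_right h4 (by positivity)
    _ = _ := by ring

theorem BB_le (q s : ℕ) : ∀ ε : ℝ, 0 < ε → ∃ L : ℕ, ∃ δ : ℝ, 0 < δ ∧ ∃ n₀ : ℕ, ∀ n : ℕ, n₀ ≤ n →
    ∀ b : ℕ, (b : ℝ) ≤ δ * n → (BB q (n / 2 ^ L + 1) L s b : ℝ) ≤ tow (s + 1) (ε * n) := by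
  induction s with
  | zero =>
    intro ε hε
    obtain ⟨L, hL⟩ := small q (ε / 4) (by positivity)
    obtain ⟨n₀, h0⟩ := exists_nat_gt
      (((q : ℝ) * L + 1) * (6 + (q + 5) * q) / (ε / 4))
    refine ⟨L, ε / (80 * (q * L + 1)), by positivity, n₀, fun n hn b hb => ?_⟩
    have hn' : (n₀ : ℝ) ≤ n := by exact_mod_cast hn
    have hnn : (0 : ℝ) ≤ n := Nat.cast_nonneg n
    have hA : (0 : ℝ) < (q : ℝ) * L + 1 := by positivity
    have g1 : ((q : ℝ) * L + 1) * (6 + (q + 5) * q) ≤ ε / 4 * n := by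
      rw [div_lt_iff₀ (by positivity)] at h0
      nlinarith
    have g2 : ((q : ℝ) * L + 1) * (20 * b) ≤ ε / 4 * n := by
      calc ((q : ℝ) * L + 1) * (20 * b) ≤
            ((q : ℝ) * L + 1) * (20 * (ε / (80 * (q * L + 1)) * n)) := by gcongr
        _ = ε / 4 * n := by field_simp; ring
    have g3 : ((q : ℝ) * L + 1) * (((q + 5) * q) * (n / 2 ^ L)) ≤ ε / 4 * n := by
      calc ((q : ℝ) * L + 1) * (((q + 5) * q) * (n / 2 ^ L)) =
            (((q : ℝ) * L + 1) * ((q + 5) * q) / 2 ^ L) * n := by ring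
        _ ≤ ε / 4 * n := mul_le_mul_of_nonneg_right hL hnn
    have hdiv : (((n / 2 ^ L : ℕ)) : ℝ) ≤ n / 2 ^ L := by
      have := @Nat.cast_div_le ℝ _ _ _ n (2 ^ L)
      push_cast at this
      exact this
    have h1 : BB q (n / 2 ^ L + 1) L 0 b ≤
        2 ^ ((6 + 20 * b + (q + 5) * (q * (n / 2 ^ L + 1))) * (q * L + 1)) := by
      rw [pow_mul]
      exact Nat.pow_le_pow_left (Z_le _ _ _) _
    have h2 : (BB q (n / 2 ^ L + 1) L 0 b : ℝ) ≤
        (2 : ℝ) ^ (((6 + 20 * b + (q + 5) * (q * (n / 2 ^ L + 1))) * (q * L + 1) : ℕ) : ℝ) := by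
      rw [Real.rpow_natCast]
      exact_mod_cast h1
    refine h2.trans ?_
    simp only [tow]
    apply Real.rpow_le_rpow_of_exponent_le (by norm_num)
    push_cast
    have g4 : ((6 : ℝ) + 20 * b + (q + 5) * (q * (((n / 2 ^ L : ℕ) : ℝ) + 1))) * (q * L + 1) ≤
        (6 + 20 * b + (q + 5) * (q * (n / 2 ^ L + 1))) * (q * L + 1) := by
      gcongr
    have g5 : ((6 : ℝ) + 20 * b + (q + 5) * (q * (n / 2 ^ L + 1))) * (q * L + 1) =
        ((q : ℝ) * L + 1) * (6 + (q + 5) * q) + ((q : ℝ) * L + 1) * (20 * b) +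
        ((q : ℝ) * L + 1) * (((q + 5) * q) * (n / 2 ^ L)) := by ring
    nlinarith [mul_nonneg hε.le hnn]
  | succ s ih =>
    intro ε hε
    obtain ⟨L, δ, hδ, n₀, h0⟩ := ih (ε / 16) (by positivity)
    have hexp : ∃ n₁ : ℕ, ∀ n : ℕ, n₁ ≤ n → ∀ b : ℕ, (2 * b : ℝ) ≤ ε / 16 * n →
        (2 * b : ℝ) + 2 * s + 8 + (2 * s + 4) * tow s (ε / 16 * n) ≤ tow s (ε * n) := by
      obtain ⟨a, ha⟩ := exists_nat_gt (16 / ε)
      cases s with
      | zero =>
        refine ⟨a, fun n hn b hb => ?_⟩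
        have hn1 : (a : ℝ) ≤ n := by exact_mod_cast hn
        have : 16 < ε * n := by
          rw [div_lt_iff₀ hε] at ha
          nlinarith
        simp only [tow]
        push_cast
        linarith
      | succ t =>
        obtain ⟨n₂, h2⟩ := tow_big t (4 * t + 20) (ε / 16) ε (by positivity) (by linarith)
        refine ⟨max n₂ a, fun n hn b hb => ?_⟩
        have h3 := h2 n ((le_max_left _ _).trans hn)
        have hn1 : (a : ℝ) ≤ n := by exact_mod_cast (le_max_right _ _).trans hn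
        have h4 : 1 ≤ ε / 16 * n := by
          rw [div_lt_iff₀ hε] at ha
          nlinarith
        have h5 := le_tow (t + 1) (ε / 16 * n)
        set T := tow (t + 1) (ε / 16 * n) with hT
        push_cast at h3 ⊢
        have ht : (0 : ℝ) ≤ t := Nat.cast_nonneg t
        nlinarith
    obtain ⟨n₁, h1⟩ := hexp
    refine ⟨L, min (δ / 2) (ε / 32), by positivity, max n₀ n₁, fun n hn b hb => ?_⟩
    have hn0 : n₀ ≤ n := (le_max_left _ _).trans hn
    have hn1 : n₁ ≤ n := (le_max_right _ _).trans hn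
    have hnn : (0 : ℝ) ≤ n := Nat.cast_nonneg n
    have hb1 : ((2 * b : ℕ) : ℝ) ≤ δ * n := by
      push_cast
      have := hb.trans (mul_le_mul_of_nonneg_right (min_le_left _ _) hnn)
      linarith
    have hb2 : (2 * b : ℝ) ≤ ε / 16 * n := by
      have := hb.trans (mul_le_mul_of_nonneg_right (min_le_right _ _) hnn)
      linarith
    have hk := h0 n hn0 (2 * b) hb1
    have hE := h1 n hn1 b hb2
    set k := BB q (n / 2 ^ L + 1) L s (2 * b) with hkd
    have hk1 : 1 ≤ k := BB_pos _ _ _ _ _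
    have e1 : (BB q (n / 2 ^ L + 1) L (s + 1) b : ℝ) ≤
        (2 : ℝ) ^ (((2 ^ (2 * b + 2 * s + 8) * k ^ (2 * s + 4) : ℕ)) : ℝ) := by
      rw [Real.rpow_natCast]
      have : BB q (n / 2 ^ L + 1) L (s + 1) b ≤
        2 ^ (2 ^ (2 * b + 2 * s + 8) * k ^ (2 * s + 4)) := cost_le s b k hk1
      exact_mod_cast this
    refine e1.trans ?_
    change (2 : ℝ) ^ _ ≤ 2 ^ (tow (s + 1) (ε * n))
    apply Real.rpow_le_rpow_of_exponent_le (by norm_num)
    have e3 : ((2 ^ (2 * b + 2 * s + 8) * k ^ (2 * s + 4) : ℕ) : ℝ) ≤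
        2 ^ ((2 * b : ℝ) + 2 * s + 8 + (2 * s + 4) * tow s (ε / 16 * n)) := by
      push_cast
      rw [Real.rpow_add (by norm_num)]
      have f1 : (2 : ℝ) ^ (2 * b + 2 * s + 8) = 2 ^ ((2 * b : ℝ) + 2 * s + 8) := by
        rw [← Real.rpow_natCast]
        push_cast
        rfl
      have f2 : (k : ℝ) ^ (2 * s + 4) ≤ 2 ^ ((2 * (s : ℝ) + 4) * tow s (ε / 16 * n)) := by
        have f3 : (k : ℝ) ≤ 2 ^ (tow s (ε / 16 * n)) := hk
        calc (k : ℝ) ^ (2 * s + 4) ≤ (2 ^ (tow s (ε / 16 * n))) ^ (2 * s + 4) :=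
              pow_le_pow_left₀ (Nat.cast_nonneg _) f3 _
          _ = 2 ^ ((2 * (s : ℝ) + 4) * tow s (ε / 16 * n)) := by
              rw [← Real.rpow_natCast, ← Real.rpow_mul (by norm_num)]
              push_cast
              ring_nf
      rw [f1]
      exact mul_le_mul_of_nonneg_left f2 (by positivity)
    calc ((2 ^ (2 * b + 2 * s + 8) * k ^ (2 * s + 4) : ℕ) : ℝ)
        ≤ _ := e3
      _ ≤ 2 ^ (tow s (ε * n)) := Real.rpow_le_rpow_of_exponent_le (by norm_num) hE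
      _ = tow (s + 1) (ε * n) := rfl

end Pool.Agent.T3h47.EQ
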