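import Pool.Agent.T3h47.EQ.Defs
import Pool.Agent.T3h47.EQ.Upper
import Pool.Agent.TH138.NF.Main

/-!
# The results about equality queries
-/

set_option autoImplicit false

namespace Pool.Agent.T3h47.EQ

open Finset Pool.Agent.TH138.NF

variable {κ : Type}

/-- the tree as a general decision tree -/
def Tree.toDT {s : ℕ} : Tree κ (s + 1) → DT (Qy s) κ
  | .out a => .out a
  | .ask i j f g P Q => .ask (.eq i j f g) P.toDT Q.toDT
  | .thr τ P Q => .ask (.thr τ) P.toDT Q.toDT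

theorem run_toDT {s : ℕ} (P : Tree κ (s + 1)) (x : Fin (s + 2) → ℕ) :
    P.toDT.run (Qy.ev x) = P.run x := by
  induction P with
  | out a => rfl
  | ask i j f g P Q ihP ihQ =>
    simp only [Tree.toDT, DT.run, Tree.run, Qy.ev, ihP, ihQ, decide_eq_true_eq]
  | thr τ P Q ihP ihQ =>
    simp only [Tree.toDT, DT.run, Tree.run, Qy.ev, ihP, ihQ, decide_eq_true_eq]

theorem depth_toDT {s : ℕ} (P : Tree κ (s + 1)) : P.toDT.depth = P.queries := by
  induction P with
  | out a => rfl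
  | ask i j f g P Q ihP ihQ => simp only [Tree.toDT, DT.depth, Tree.queries, ihP, ihQ]
  | thr τ P Q ihP ihQ => simp only [Tree.toDT, DT.depth, Tree.queries, ihP, ihQ]

theorem homog {s : ℕ} {P : Tree κ (s + 1)} {N : ℕ} {c : Finset ℕ → κ}
    (hP : EQ.Computes P N c) {S : Finset ℕ} (hS : S ⊆ range N) (h : HomT P.toDT S) :
    Homogeneous (s + 2) c S := by
  intro A hA B hB hAc hBc
  have key : ∀ D ⊆ S, ∀ hD : D.card = s + 2,
      c D = P.toDT.run (Qy.ev (fun i => D.orderEmbOfFin hD i)) := by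
    intro D hDS hD
    rw [run_toDT, hP _ (D.orderEmbOfFin hD).strictMono
      (fun i => mem_range.1 (hS (hDS (D.orderEmbOfFin_mem hD i))))]
    congr 1
    rw [← coe_inj, coe_image, coe_univ, Set.image_univ, range_orderEmbOfFin]
  rw [key A hA hAc, key B hB hBc]
  exact h _ _ (A.orderEmbOfFin hAc).strictMono (B.orderEmbOfFin hBc).strictMono
    (fun i => hA (A.orderEmbOfFin_mem hAc i)) (fun i => hB (B.orderEmbOfFin_mem hBc i))

/-- **Few equality queries.** -/
theorem few (s q : ℕ) (ε : ℝ) (hε : 0 < ε) : ∃ δ : ℝ, 0 < δ ∧ ∃ n₀ : ℕ, ∀ n : ℕ, n₀ ≤ n →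
    ∀ N : ℕ, tow (s + 1) (ε * n) ≤ N → ∀ (κ : Type) [Fintype κ], Fintype.card κ ≤ q →
      ∀ (P : Tree κ (s + 1)) (c : Finset ℕ → κ), (P.queries : ℝ) ≤ δ * n → EQ.Computes P N c →
        ∃ S ⊆ range N, S.card = n ∧ Homogeneous (s + 2) c S := by
  classical
  obtain ⟨L, δ, hδ, n₀, h0⟩ := BB_le q s ε hε
  refine ⟨δ, hδ, n₀, fun n hn N hN κ _ hκ P c hb hP => ?_⟩
  have h1 := h0 n hn P.queries hb
  obtain ⟨S, hS, hc, hh⟩ := upper q hκ n (n / 2 ^ L + 1) L (by
      have := Nat.lt_mul_div_succ n (b := 2 ^ L) (by positivity)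
      exact this.le) s P.queries P.toDT (range N)
    (depth_toDT P).le (by
      rw [card_range]
      exact_mod_cast h1.trans hN)
  exact ⟨S, hS, hc, homog hP hS hh⟩

/-! ### A bounded number of queries -/

theorem tow_mul (t D : ℕ) (hD : 1 ≤ D) {x : ℝ} (hx : 1 ≤ x) :
    (D : ℝ) * tow t x ≤ tow t (D * x) := by
  induction t with
  | zero => exact le_rfl
  | succ t ih =>
    simp only [tow]
    have hy : 1 ≤ tow t x := hx.trans (le_tow t x)
    have h1 : (D : ℝ) ≤ 2 ^ ((D : ℝ) - 1) := by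
      obtain ⟨e, rfl⟩ : ∃ e, D = e + 1 := ⟨D - 1, by omega⟩
      push_cast
      rw [add_sub_cancel_right, Real.rpow_natCast]
      exact_mod_cast Nat.lt_two_pow_self (n := e)
    have hD' : (1 : ℝ) ≤ D := by exact_mod_cast hD
    calc (D : ℝ) * 2 ^ tow t x ≤ 2 ^ ((D : ℝ) - 1) * 2 ^ tow t x :=
          mul_le_mul_of_nonneg_right h1 (by positivity)
      _ = 2 ^ ((D : ℝ) - 1 + tow t x) := by rw [Real.rpow_add (by norm_num)]
      _ ≤ 2 ^ ((D : ℝ) * tow t x) := by
          apply Real.rpow_le_rpow_of_exponent_le (by norm_num)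
          nlinarith
      _ ≤ 2 ^ tow t (D * x) := Real.rpow_le_rpow_of_exponent_le (by norm_num) ih

theorem mul_pow_le (D C n : ℕ) (hn : 2 ≤ n) : (D : ℝ) * (n : ℝ) ^ C ≤ (n : ℝ) ^ (D + C) := by
  have h1 : D ≤ n ^ D := (Nat.lt_pow_self (by omega)).le
  rw [pow_add]
  apply mul_le_mul_of_nonneg_right _ (by positivity)
  exact_mod_cast h1

theorem BB_bounded (q s : ℕ) : ∀ b : ℕ, ∃ C : ℕ, ∀ n : ℕ, 2 ≤ n →
    (BB q 1 (Nat.clog 2 n) s b : ℝ) ≤ tow s ((n : ℝ) ^ C) := by
  induction s with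
  | zero =>
    intro b
    set z := 6 + 20 * b + (q + 5) * (q * 1) with hz
    refine ⟨z * (2 * q + 1), fun n hn => ?_⟩
    simp only [tow, BB]
    have h1 : Z q b 1 ^ (q * Nat.clog 2 n + 1) ≤ n ^ (z * (2 * q + 1)) := by
      have h2 : 2 ^ Nat.clog 2 n ≤ n ^ 2 := by
        have h3 : 2 ^ (Nat.clog 2 n - 1) < n := Nat.pow_pred_clog_lt_self (by norm_num) (by omega)
        have h4 : 1 ≤ Nat.clog 2 n := Nat.clog_pos (by norm_num) hn
        have h5 : 2 ^ Nat.clog 2 n = 2 ^ (Nat.clog 2 n - 1) * 2 := by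
          rw [← pow_succ]
          congr 1
          omega
        rw [h5, sq]
        exact Nat.mul_le_mul h3.le hn
      calc Z q b 1 ^ (q * Nat.clog 2 n + 1) ≤ (2 ^ z) ^ (q * Nat.clog 2 n + 1) :=
            Nat.pow_le_pow_left (Z_le q b 1) _
        _ = (2 ^ Nat.clog 2 n) ^ (z * q) * 2 ^ z := by
            rw [← pow_mul, ← pow_mul, ← pow_add]
            ring_nf
        _ ≤ (n ^ 2) ^ (z * q) * n ^ z :=
            Nat.mul_le_mul (Nat.pow_le_pow_left h2 _) (Nat.pow_le_pow_left hn _)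
        _ = n ^ (z * (2 * q + 1)) := by
            rw [← pow_mul, ← pow_add]
            ring_nf
    exact_mod_cast h1
  | succ s ih =>
    intro b
    obtain ⟨C, hC⟩ := ih (2 * b)
    have key : ∃ C' : ℕ, ∀ n : ℕ, 2 ≤ n →
        (((2 ^ (2 * b + 2 * s + 8) * (BB q 1 (Nat.clog 2 n) s (2 * b)) ^ (2 * s + 4) : ℕ)) : ℝ)
          ≤ tow s ((n : ℝ) ^ C') := by
      cases s with
      | zero =>
        refine ⟨2 * b + 8 + C * 4, fun n hn => ?_⟩
        have h1 := hC n hn
        simp only [tow] at h1 ⊢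
        push_cast
        have hn2 : (2 : ℝ) ≤ n := by exact_mod_cast hn
        calc (2 : ℝ) ^ (2 * b + 2 * 0 + 8) * (BB q 1 (Nat.clog 2 n) 0 (2 * b) : ℝ) ^ (2 * 0 + 4)
            ≤ (n : ℝ) ^ (2 * b + 8) * ((n : ℝ) ^ C) ^ 4 := by
              apply mul_le_mul _ _ (by positivity) (by positivity)
              · exact pow_le_pow_left₀ (by norm_num) hn2 _
              · exact pow_le_pow_left₀ (Nat.cast_nonneg _) h1 _
          _ = _ := by rw [← pow_mul, ← pow_add]
      | succ t =>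
        refine ⟨(2 * b + 4 * (t + 1) + 12) + C, fun n hn => ?_⟩
        have h1 := hC n hn
        have hn1 : (1 : ℝ) ≤ (n : ℝ) ^ C := one_le_pow₀ (by exact_mod_cast (by omega : 1 ≤ n))
        have hT : 1 ≤ tow t ((n : ℝ) ^ C) := hn1.trans (le_tow _ _)
        set T := tow t ((n : ℝ) ^ C) with hTd
        have h1' : (BB q 1 (Nat.clog 2 n) (t + 1) (2 * b) : ℝ) ≤ (2 : ℝ) ^ T := h1
        push_cast
        calc (2 : ℝ) ^ (2 * b + 2 * (t + 1) + 8) *
              (BB q 1 (Nat.clog 2 n) (t + 1) (2 * b) : ℝ) ^ (2 * (t + 1) + 4)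
            ≤ (2 : ℝ) ^ (2 * b + 2 * (t + 1) + 8) * ((2 : ℝ) ^ T) ^ (2 * (t + 1) + 4) := by
              apply mul_le_mul_of_nonneg_left _ (by positivity)
              exact pow_le_pow_left₀ (Nat.cast_nonneg _) h1' _
          _ = (2 : ℝ) ^ (((2 * b + 2 * (t + 1) + 8 : ℕ) : ℝ) +
                T * ((2 * (t + 1) + 4 : ℕ) : ℝ)) := by
              rw [← Real.rpow_natCast ((2 : ℝ) ^ T), ← Real.rpow_mul (by norm_num),
                ← Real.rpow_natCast (2 : ℝ), ← Real.rpow_add (by norm_num)]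
          _ ≤ (2 : ℝ) ^ (((2 * b + 4 * (t + 1) + 12 : ℕ) : ℝ) * T) := by
              apply Real.rpow_le_rpow_of_exponent_le (by norm_num)
              push_cast
              have hb0 : (0 : ℝ) ≤ b := Nat.cast_nonneg b
              have ht0 : (0 : ℝ) ≤ t := Nat.cast_nonneg t
              nlinarith
          _ ≤ (2 : ℝ) ^ tow t (((2 * b + 4 * (t + 1) + 12 : ℕ) : ℝ) * (n : ℝ) ^ C) :=
              Real.rpow_le_rpow_of_exponent_le (by norm_num) (tow_mul t _ (by omega) hn1)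
          _ ≤ (2 : ℝ) ^ tow t ((n : ℝ) ^ ((2 * b + 4 * (t + 1) + 12) + C)) :=
              Real.rpow_le_rpow_of_exponent_le (by norm_num)
                (tow_mono t (mul_pow_le _ _ _ hn))
    obtain ⟨C', hC'⟩ := key
    refine ⟨C', fun n hn => ?_⟩
    have e1 : (BB q 1 (Nat.clog 2 n) (s + 1) b : ℝ) ≤
        (2 : ℝ) ^ (((2 ^ (2 * b + 2 * s + 8) *
          (BB q 1 (Nat.clog 2 n) s (2 * b)) ^ (2 * s + 4) : ℕ)) : ℝ) := by
      rw [Real.rpow_natCast]
      have := cost_le s b (BB q 1 (Nat.clog 2 n) s (2 * b)) (BB_pos _ _ _ _ _)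
      exact_mod_cast this
    exact e1.trans (Real.rpow_le_rpow_of_exponent_le (by norm_num) (hC' n hn))

/-- **Boundedly many equality queries.** -/
theorem bounded (s q b : ℕ) : ∃ C : ℕ, ∀ n : ℕ, 2 ≤ n →
    ∀ N : ℕ, tow s ((n : ℝ) ^ C) ≤ N → ∀ (κ : Type) [Fintype κ], Fintype.card κ ≤ q →
      ∀ (P : Tree κ (s + 1)) (c : Finset ℕ → κ), P.queries ≤ b → EQ.Computes P N c →
        ∃ S ⊆ range N, S.card = n ∧ Homogeneous (s + 2) c S := by
  classical
  obtain ⟨C, hC⟩ := BB_bounded q s b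
  refine ⟨C, fun n hn N hN κ _ hκ P c hb hP => ?_⟩
  obtain ⟨S, hS, hc, hh⟩ := upper q hκ n 1 (Nat.clog 2 n) (by
      rw [mul_one]
      exact Nat.le_pow_clog (by norm_num) n) s b P.toDT (range N)
    ((depth_toDT P).le.trans hb) (by
      rw [card_range]
      exact_mod_cast (hC n hn).trans hN)
  exact ⟨S, hS, hc, homog hP hS hh⟩

/-! ### Announcements are special queries -/

/-- a protocol as a tree -/
def ofProtocol {r : ℕ} : Protocol κ r → Tree κ r
  | .out a => .out a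
  | .ask j f P Q => .ask j j (fun y => if f y then 1 else 0) (fun _ => 1)
      (ofProtocol P) (ofProtocol Q)

theorem run_ofProtocol {r : ℕ} (P : Protocol κ r) (x : Fin (r + 1) → ℕ) :
    (ofProtocol P).run x = P.run x := by
  induction P with
  | out a => rfl
  | ask j f P Q ihP ihQ =>
    simp only [ofProtocol, Tree.run, Protocol.run, ihP, ihQ]
    by_cases h : f (j.removeNth x) = true <;> simp [h]

theorem queries_ofProtocol {r : ℕ} (P : Protocol κ r) : (ofProtocol P).queries = P.bits := by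
  induction P with
  | out a => rfl
  | ask j f P Q ihP ihQ => simp only [ofProtocol, Tree.queries, Protocol.bits, ihP, ihQ]

/-- **Sharpness.** -/
theorem sharp (s j : ℕ) : ∃ N : ℕ, (N : ℝ) = tow (s + 2) j ∧
    ∃ (P : Tree (Bool × Bool) (s + 2)) (c : Finset ℕ → Bool × Bool),
      P.queries ≤ j + 4 * s + 2 ∧ EQ.Computes P N c ∧
        ∀ S ⊆ range N, S.card = 2 ^ s * (4 * j + s + 5) → ¬ Homogeneous (s + 3) c S := by
  obtain ⟨N, hN, P, c, h1, h2, h3⟩ := high s j
  refine ⟨N, hN, ofProtocol P, c, by rw [queries_ofProtocol]; exact h1, ?_, h3⟩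
  intro x hx hxN
  rw [run_ofProtocol]
  exact h2 x hx hxN

end Pool.Agent.T3h47.EQ
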