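import Pool.Agent.T3h47.EQ.Base

/-!
# Pairs: large rectangles with a good colour
-/

set_option autoImplicit false

namespace Pool.Agent.T3h47.EQ

open Finset

variable {κ : Type}

theorem rem2 (i : Fin 2) (x y : ℕ) :
    i.removeNth ![x, y] = fun _ : Fin 1 => if i = 0 then y else x := by
  funext a
  fin_cases i <;> fin_cases a <;> rfl

theorem q_cmp (q : Qy 0) : ∃ (F G : ℕ → ℕ) (a b c : Bool), ∀ x y : ℕ,
    (F x < G y → Qy.ev ![x, y] q = a) ∧ (F x = G y → Qy.ev ![x, y] q = b) ∧
      (G y < F x → Qy.ev ![x, y] q = c) := by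
  cases q with
  | eq i j f g =>
    obtain ⟨f', hf'⟩ : ∃ f' : ℕ → ℕ, ∀ x, f (fun _ => x) = f' x := ⟨_, fun _ => rfl⟩
    obtain ⟨g', hg'⟩ : ∃ g' : ℕ → ℕ, ∀ x, g (fun _ => x) = g' x := ⟨_, fun _ => rfl⟩
    by_cases hi : i = 0 <;> by_cases hj : j = 0
    · refine ⟨fun _ => 1, fun y => if f' y = g' y then 1 else 0,
        false, true, false, fun x y => ?_⟩
      simp only [Qy.ev, rem2, if_pos hi, if_pos hj, hf', hg']
      by_cases h : f' y = g' y <;> simp [h]
    · refine ⟨g', f', false, true, false, fun x y => ?_⟩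
      simp only [Qy.ev, rem2, if_pos hi, if_neg hj, decide_eq_true_iff, decide_eq_false_iff_not,
        hf', hg']
      refine ⟨fun h => ?_, fun h => h.symm, fun h => ?_⟩ <;> omega
    · refine ⟨f', g', false, true, false, fun x y => ?_⟩
      simp only [Qy.ev, rem2, if_neg hi, if_pos hj, decide_eq_true_iff, decide_eq_false_iff_not,
        hf', hg']
      refine ⟨fun h => ?_, fun h => h, fun h => ?_⟩ <;> omega
    · refine ⟨fun x => if f' x = g' x then 1 else 0, fun _ => 1,
        false, true, false, fun x y => ?_⟩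
      simp only [Qy.ev, rem2, if_neg hi, if_neg hj, hf', hg']
      by_cases h : f' x = g' x <;> simp [h]
  | thr t =>
    obtain ⟨t', ht'⟩ : ∃ t' : ℕ → ℕ, ∀ x, t (fun _ => x) = t' x := ⟨_, fun _ => rfl⟩
    refine ⟨t', fun y => y, true, true, false, fun x y => ?_⟩
    have h1 : Qy.ev ![x, y] (.thr t) = decide (t' x ≤ y) := by
      simp only [Qy.ev, rem2]
      rw [← ht']
      rfl
    rw [h1]
    simp only [decide_eq_true_iff, decide_eq_false_iff_not]
    refine ⟨fun h => ?_, fun h => ?_, fun h => ?_⟩ <;> omega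

theorem quarter_split {S : ℝ} (hS : 0 ≤ S) : S = S ^ (1 / 4 : ℝ) * S ^ (3 / 4 : ℝ) := by
  rw [← Real.rpow_add_of_nonneg hS (by norm_num) (by norm_num)]
  norm_num

theorem tree_count (good : κ → Prop) (M : ℝ) (hM : 0 ≤ M) (P : DT (Qy 0) κ) :
    ∀ (X Y : Finset ℕ), (∀ A ⊆ X, ∀ B ⊆ Y, ∀ c, good c →
      (∀ x ∈ A, ∀ y ∈ B, P.run (Qy.ev ![x, y]) = c) → ((A.card * B.card : ℕ) : ℝ) ≤ M) →
    (cnt (fun x y => good (P.run (Qy.ev ![x, y]))) X Y : ℝ) ≤
      18 ^ P.depth * M ^ (1 / 4 : ℝ) * ph (X.card * Y.card) := by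
  classical
  have hM4 : 0 ≤ M ^ (1 / 4 : ℝ) := Real.rpow_nonneg hM _
  induction P with
  | out a =>
    intro X Y H
    simp only [DT.run, DT.depth, pow_zero, one_mul]
    by_cases ha : good a
    · have h1 := H X Subset.rfl Y Subset.rfl a ha (fun _ _ _ _ => rfl)
      have h2 : ((cnt (fun _ _ => good a) X Y : ℕ) : ℝ) ≤ ((X.card * Y.card : ℕ) : ℝ) := by
        exact_mod_cast cnt_le_mul _ _ _
      refine h2.trans ?_
      have h3 := quarter_split (S := ((X.card * Y.card : ℕ) : ℝ)) (Nat.cast_nonneg _)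
      calc ((X.card * Y.card : ℕ) : ℝ) =
          ((X.card * Y.card : ℕ) : ℝ) ^ (1 / 4 : ℝ) * ph (X.card * Y.card) := h3
        _ ≤ _ := by
            apply mul_le_mul_of_nonneg_right _ (ph_nonneg _)
            exact Real.rpow_le_rpow (Nat.cast_nonneg _) h1 (by norm_num)
    · have h2 : cnt (fun _ _ => good a) X Y = 0 := by
        unfold cnt
        rw [card_eq_zero, filter_eq_empty_iff]
        intro p _
        exact ha
      rw [h2]
      have := ph_nonneg (X.card * Y.card)
      simp only [Nat.cast_zero]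
      positivity
  | ask q P R ihP ihR =>
    intro X Y H
    obtain ⟨F, G, a, b, c, hq⟩ := q_cmp q
    set D := max P.depth R.depth with hD
    have hK : 0 ≤ (18 : ℝ) ^ D * M ^ (1 / 4 : ℝ) := by positivity
    have key := cells F G (fun x y => good ((DT.ask q P R).run (Qy.ev ![x, y])))
      ((18 : ℝ) ^ D * M ^ (1 / 4 : ℝ)) hK _ X Y le_rfl (by
        intro A hA B hB hcase
        have hconst : ∃ d : Bool, ∀ x ∈ A, ∀ y ∈ B, Qy.ev ![x, y] q = d := by
          rcases hcase with h | h | h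
          · exact ⟨a, fun x hx y hy => (hq x y).1 (h x hx y hy)⟩
          · exact ⟨b, fun x hx y hy => (hq x y).2.1 (h x hx y hy)⟩
          · exact ⟨c, fun x hx y hy => (hq x y).2.2 (h x hx y hy)⟩
        obtain ⟨d, hd⟩ := hconst
        cases d with
        | false =>
          have hrun : ∀ x ∈ A, ∀ y ∈ B, (DT.ask q P R).run (Qy.ev ![x, y]) =
              P.run (Qy.ev ![x, y]) := by
            intro x hx y hy
            simp only [DT.run]
            rw [hd x hx y hy, if_neg (by simp)]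
          rw [cnt_congr (g' := fun x y => good (P.run (Qy.ev ![x, y])))
            (fun x hx y hy => by rw [hrun x hx y hy])]
          refine (ihP A B (fun A' hA' B' hB' c hc h => H A' (hA'.trans hA) B' (hB'.trans hB) c hc
            (fun x hx y hy => by rw [hrun x (hA' hx) y (hB' hy)]; exact h x hx y hy))).trans ?_
          apply mul_le_mul_of_nonneg_right _ (ph_nonneg _)
          apply mul_le_mul_of_nonneg_right _ hM4
          exact pow_le_pow_right₀ (by norm_num) (le_max_left _ _)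
        | true =>
          have hrun : ∀ x ∈ A, ∀ y ∈ B, (DT.ask q P R).run (Qy.ev ![x, y]) =
              R.run (Qy.ev ![x, y]) := by
            intro x hx y hy
            simp only [DT.run]
            rw [hd x hx y hy, if_pos rfl]
          rw [cnt_congr (g' := fun x y => good (R.run (Qy.ev ![x, y])))
            (fun x hx y hy => by rw [hrun x hx y hy])]
          refine (ihR A B (fun A' hA' B' hB' c hc h => H A' (hA'.trans hA) B' (hB'.trans hB) c hc
            (fun x hx y hy => by rw [hrun x (hA' hx) y (hB' hy)]; exact h x hx y hy))).trans ?_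
          apply mul_le_mul_of_nonneg_right _ (ph_nonneg _)
          apply mul_le_mul_of_nonneg_right _ hM4
          exact pow_le_pow_right₀ (by norm_num) (le_max_right _ _))
    refine key.trans (le_of_eq ?_)
    simp only [DT.depth]
    ring

/-- **Large rectangles.** -/
theorem rich (good : κ → Prop) (P : DT (Qy 0) κ) (d : ℕ) (hd : P.depth ≤ d) (X Y : Finset ℕ)
    (h : X.card * Y.card < 2 * cnt (fun x y => good (P.run (Qy.ev ![x, y]))) X Y) :
    ∃ A ⊆ X, ∃ B ⊆ Y, ∃ c, good c ∧ (∀ x ∈ A, ∀ y ∈ B, P.run (Qy.ev ![x, y]) = c) ∧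
      X.card * Y.card ≤ 16 * 18 ^ (4 * d) * (A.card * B.card) := by
  by_contra hcon
  push Not at hcon
  set S : ℝ := ((X.card * Y.card : ℕ) : ℝ) with hS
  have hS0 : 0 ≤ S := Nat.cast_nonneg _
  set C : ℝ := 16 * 18 ^ (4 * d) with hC
  have hC0 : 0 < C := by positivity
  have hM : 0 ≤ S / C := by positivity
  have h1 := tree_count good (S / C) hM P X Y (fun A hA B hB c hc hAB => by
    have h2 := hcon A hA B hB c hc hAB
    rw [le_div_iff₀ hC0]
    have h3 : ((16 * 18 ^ (4 * d) * (A.card * B.card) : ℕ) : ℝ) < S := by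
      rw [hS]; exact_mod_cast h2
    push_cast at h3 ⊢
    rw [hC]
    linarith)
  set g : ℝ := ((cnt (fun x y => good (P.run (Qy.ev ![x, y]))) X Y : ℕ) : ℝ) with hg
  have hg0 : 0 ≤ g := Nat.cast_nonneg _
  have h2 : S < 2 * g := by rw [hS, hg]; exact_mod_cast h
  have h3 : g ≤ 18 ^ d * (S / C) ^ (1 / 4 : ℝ) * ph (X.card * Y.card) := by
    refine h1.trans ?_
    apply mul_le_mul_of_nonneg_right _ (ph_nonneg _)
    apply mul_le_mul_of_nonneg_right _ (Real.rpow_nonneg hM _)
    exact pow_le_pow_right₀ (by norm_num) hd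
  have h4 : g ^ 4 ≤ (18 ^ d * (S / C) ^ (1 / 4 : ℝ) * ph (X.card * Y.card)) ^ 4 :=
    pow_le_pow_left₀ hg0 h3 4
  have h5 : (18 ^ d * (S / C) ^ (1 / 4 : ℝ) * ph (X.card * Y.card)) ^ 4 =
      18 ^ (4 * d) * (S / C) * S ^ 3 := by
    have e1 : ((S / C) ^ (1 / 4 : ℝ)) ^ 4 = S / C := by
      rw [← Real.rpow_natCast, ← Real.rpow_mul hM]
      norm_num
    have e2 : (ph (X.card * Y.card)) ^ 4 = S ^ 3 := by
      unfold ph
      rw [← hS, ← Real.rpow_natCast, ← Real.rpow_mul hS0, ← Real.rpow_natCast]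
      norm_num
    rw [mul_pow, mul_pow, e1, e2, ← pow_mul, mul_comm d 4]
  rw [h5] at h4
  have h6 : 18 ^ (4 * d) * (S / C) * S ^ 3 = S ^ 4 / 16 := by
    rw [hC]
    have : (18 : ℝ) ^ (4 * d) ≠ 0 := by positivity
    field_simp
  rw [h6] at h4
  have h7 : (S / 2) ^ 4 < g ^ 4 := pow_lt_pow_left₀ (by linarith) (by positivity) (by norm_num)
  have h8 : (S / 2) ^ 4 = S ^ 4 / 16 := by ring
  linarith

end Pool.Agent.T3h47.EQ
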