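import Mathlib

/-!
# End-homogeneous sequences with monotone thresholds
-/

set_option autoImplicit false

namespace Pool.Agent.T3h47.EQ

open Finset

/-- one step: the next vertex `v` is chosen such that all the thresholds `τ e v` are either below
or above all the remaining vertices; the second kind (`e ∈ S'`) is permanent -/
theorem sat {η : Type} [DecidableEq η] (τ : η → ℕ → ℕ) (M A : ℕ) (E0 : Finset η)
    (hE0 : E0.card ≤ M) (hA : 1 ≤ A) : ∀ (m : ℕ) (S : Finset η) (W : Finset ℕ),
    (E0 \ S).card ≤ m → S ⊆ E0 → 4 * A * (4 * M) ^ (M - S.card) ≤ W.card →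
    (∀ e ∈ S, ∀ w ∈ W, ∀ w' ∈ W, w' < τ e w) →
    ∃ S', S ⊆ S' ∧ S' ⊆ E0 ∧ ∃ v ∈ W, ∃ W' ⊆ W, A * (4 * M) ^ (M - S'.card) ≤ W'.card ∧
      (∀ w ∈ W', v < w) ∧ (∀ e ∈ S', ∀ w' ∈ W', w' < τ e v) ∧
      (∀ e ∈ S', ∀ w ∈ W', ∀ w' ∈ W', w' < τ e w) ∧
      (∀ e ∈ E0, e ∉ S' → ∀ w' ∈ W', τ e v ≤ w') := by
  classical
  intro m
  induction m with
  | zero =>
    intro S W hm hSE hW hS
    have hsub : E0 ⊆ S := by
      rw [← sdiff_eq_empty_iff_subset, ← card_eq_zero]
      omega
    have hpow : 1 ≤ (4 * M) ^ (M - S.card) := by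
      rcases Nat.eq_zero_or_pos M with h | h
      · subst h; simp
      · exact Nat.one_le_pow _ _ (by omega)
    have hWc : 4 ≤ W.card := by
      refine le_trans ?_ hW
      nlinarith [Nat.mul_le_mul hA hpow]
    have hne : W.Nonempty := card_pos.1 (by omega)
    refine ⟨S, Subset.rfl, hSE, W.min' hne, W.min'_mem hne, W.erase (W.min' hne),
      erase_subset _ _, ?_, ?_, ?_, ?_, ?_⟩
    · rw [card_erase_of_mem (W.min'_mem hne)]
      have h1 : 1 ≤ A * (4 * M) ^ (M - S.card) := Nat.mul_pos hA hpow
      have h2 : 4 * A * (4 * M) ^ (M - S.card) = 4 * (A * (4 * M) ^ (M - S.card)) := by ring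
      omega
    · intro w hw
      have h := mem_erase.1 hw
      exact lt_of_le_of_ne (W.min'_le w h.2) (fun e => h.1 e.symm)
    · intro e he w' hw'
      exact hS e he _ (W.min'_mem hne) w' (mem_of_mem_erase hw')
    · intro e he w hw w' hw'
      exact hS e he w (mem_of_mem_erase hw) w' (mem_of_mem_erase hw')
    · intro e he heS
      exact absurd (hsub he) heS
  | succ m ih =>
    intro S W hm hSE hW hS
    have hpow : 1 ≤ (4 * M) ^ (M - S.card) := by
      rcases Nat.eq_zero_or_pos M with h | h
      · subst h; simp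
      · exact Nat.one_le_pow _ _ (by omega)
    have hWc : 4 ≤ W.card := by
      refine le_trans ?_ hW
      nlinarith [Nat.mul_le_mul hA hpow]
    have hne : W.Nonempty := card_pos.1 (by omega)
    -- the median
    have hex : ∃ p, W.card ≤ 2 * (W.filter (fun w => w ≤ p)).card := by
      refine ⟨W.max' hne, ?_⟩
      rw [filter_true_of_mem (fun w hw => W.le_max' w hw)]
      omega
    obtain ⟨p, hp1, hp2⟩ : ∃ p, W.card ≤ 2 * (W.filter (fun w => w ≤ p)).card ∧
        2 * (W.filter (fun w => w < p)).card < W.card := by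
      refine ⟨Nat.find hex, Nat.find_spec hex, ?_⟩
      rcases Nat.eq_zero_or_pos (Nat.find hex) with h | h
      · rw [h]
        simp only [not_lt_zero, filter_false, card_empty, mul_zero]
        omega
      · have := Nat.find_min hex (m := Nat.find hex - 1) (by omega)
        push Not at this
        refine lt_of_le_of_lt ?_ this
        apply Nat.mul_le_mul_left
        apply card_le_card
        intro w hw
        rw [mem_filter] at hw ⊢
        exact ⟨hw.1, by omega⟩
    set W1 := W.filter (fun w => w ≤ p) with hW1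
    set W2 := W.filter (fun w => p < w) with hW2
    have hW2c : W.card ≤ 4 * W2.card := by
      have h1 : W.card = (W.filter (fun w => w < p)).card + (W.filter (fun w => ¬ w < p)).card :=
        (card_filter_add_card_filter_not _).symm
      have h2 : (W.filter (fun w => ¬ w < p)).card ≤ W2.card + 1 := by
        have h3 : W.filter (fun w => ¬ w < p) ⊆ insert p W2 := by
          intro w hw
          rw [mem_filter] at hw
          rw [mem_insert, mem_filter]
          rcases eq_or_ne w p with h | h
          · exact Or.inl h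
          · exact Or.inr ⟨hw.1, by omega⟩
        exact (card_le_card h3).trans (card_insert_le _ _)
      omega
    by_cases hbad : ∃ e ∈ E0, e ∉ S ∧ W.card ≤ 4 * M * (W1.filter (fun w => p < τ e w)).card
    · obtain ⟨e, heE, heS, he⟩ := hbad
      have hScard : (insert e S).card = S.card + 1 := card_insert_of_notMem heS
      have hSE' : insert e S ⊆ E0 := insert_subset heE hSE
      have hle : (insert e S).card ≤ M := (card_le_card hSE').trans hE0
      have hMpos : 1 ≤ M := by omega
      obtain ⟨S', h1, h2, v, hv, W', hW', h3⟩ := ih (insert e S)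
        (W1.filter (fun w => p < τ e w)) (by
          have : E0 \ insert e S = (E0 \ S).erase e := by
            ext x
            simp only [mem_sdiff, mem_insert, mem_erase]
            tauto
          rw [this, card_erase_of_mem (mem_sdiff.2 ⟨heE, heS⟩)]
          omega) hSE' (by
          have h5 : M - S.card = (M - (insert e S).card) + 1 := by omega
          rw [h5, pow_succ] at hW
          have h6 : 4 * M * (4 * A * (4 * M) ^ (M - (insert e S).card)) ≤
              4 * M * (W1.filter (fun w => p < τ e w)).card := by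
            refine le_trans (le_of_eq ?_) (hW.trans he)
            ring
          exact Nat.le_of_mul_le_mul_left h6 (by omega)) (by
          intro e' he' w hw w' hw'
          rw [mem_filter, hW1, mem_filter] at hw hw'
          rcases mem_insert.1 he' with h | h
          · rw [h]
            exact lt_of_le_of_lt hw'.1.2 hw.2
          · exact hS e' h w hw.1.1 w' hw'.1.1)
      refine ⟨S', (subset_insert _ _).trans h1, h2, v, ?_, W', ?_, h3⟩
      · exact (mem_filter.1 (mem_filter.1 hv).1).1
      · exact hW'.trans ((filter_subset _ _).trans (filter_subset _ _))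
    · push Not at hbad
      -- a good vertex
      have hgood : ∃ v ∈ W1, ∀ e ∈ E0, e ∉ S → τ e v ≤ p := by
        by_contra hcon
        push Not at hcon
        have hcov : W1 ⊆ (E0 \ S).biUnion (fun e => W1.filter (fun w => p < τ e w)) := by
          intro w hw
          obtain ⟨e, he, heS, hew⟩ := hcon w hw
          exact mem_biUnion.2 ⟨e, mem_sdiff.2 ⟨he, heS⟩, mem_filter.2 ⟨hw, hew⟩⟩
        have h1 : W1.card ≤ ∑ e ∈ E0 \ S, (W1.filter (fun w => p < τ e w)).card :=
          (card_le_card hcov).trans card_biUnion_le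
        have h2 : 4 * M * W1.card ≤ M * W.card := by
          calc 4 * M * W1.card ≤ 4 * M * ∑ e ∈ E0 \ S, (W1.filter (fun w => p < τ e w)).card :=
                Nat.mul_le_mul_left _ h1
            _ = ∑ e ∈ E0 \ S, 4 * M * (W1.filter (fun w => p < τ e w)).card := by
                rw [mul_sum]
            _ ≤ ∑ e ∈ E0 \ S, W.card := by
                apply sum_le_sum
                intro e he
                rw [mem_sdiff] at he
                exact (hbad e he.1 he.2).le
            _ = (E0 \ S).card * W.card := by rw [sum_const, smul_eq_mul]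
            _ ≤ M * W.card := by
                apply Nat.mul_le_mul_right
                exact (card_le_card sdiff_subset).trans hE0
        rcases Nat.eq_zero_or_pos M with h | h
        · have h3 : E0 = ∅ := by
            rw [← card_eq_zero]
            omega
          have h4 : W1.card ≤ 0 := by
            refine h1.trans (le_of_eq ?_)
            rw [h3, empty_sdiff, sum_empty]
          omega
        · have h3 : 4 * W1.card ≤ W.card := by
            refine Nat.le_of_mul_le_mul_left ?_ h
            calc M * (4 * W1.card) = 4 * M * W1.card := by ring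
              _ ≤ M * W.card := h2
          omega
      obtain ⟨v, hv, hvg⟩ := hgood
      have hvW := (mem_filter.1 hv).1
      have hvp := (mem_filter.1 hv).2
      refine ⟨S, Subset.rfl, hSE, v, hvW, W2, filter_subset _ _, ?_, ?_, ?_, ?_, ?_⟩
      · have h2 : 4 * A * (4 * M) ^ (M - S.card) = 4 * (A * (4 * M) ^ (M - S.card)) := by ring
        omega
      · intro w hw
        exact lt_of_le_of_lt hvp (mem_filter.1 hw).2
      · intro e he w' hw'
        exact hS e he v hvW w' (mem_filter.1 hw').1
      · intro e he w hw w' hw'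
        exact hS e he w (mem_filter.1 hw).1 w' (mem_filter.1 hw').1
      · intro e he heS w' hw'
        exact (hvg e he heS).trans (mem_filter.1 hw').2.le

/-- **End-homogeneous sequences with monotone thresholds.** -/
theorem er {δ η : Type} [DecidableEq δ] [DecidableEq η] (D : Finset ℕ → Finset δ)
    (holds : δ → ℕ → Prop) (E : Finset ℕ → Finset η) (τ : η → ℕ → ℕ)
    (hDm : ∀ T T', T ⊆ T' → D T ⊆ D T') (hEm : ∀ T T', T ⊆ T' → E T ⊆ E T')
    (hD0 : D ∅ = ∅) (k M₁ M₂ : ℕ)
    (hD : ∀ T, T.card ≤ k + 1 → (D T).card ≤ M₁) (hE : ∀ T, T.card ≤ k + 1 → (E T).card ≤ M₂)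
    (V : Finset ℕ) (hV : (4 * 2 ^ M₁) ^ (k + 1) * (4 * M₂) ^ M₂ ≤ V.card) :
    ∃ v : ℕ → ℕ, (∀ i ≤ k, v i ∈ V) ∧ (∀ i j, i < j → j ≤ k → v i < v j) ∧
      (∀ j ≤ k, ∀ d ∈ D ((range j).image v), ∀ l, j ≤ l → l ≤ k →
        (holds d (v l) ↔ holds d (v k))) ∧
      ∃ σ : η → ℕ, ∀ j ≤ k, ∀ e ∈ E ((range j).image v), ∀ l l', j ≤ l → l < l' → l' ≤ k →
        (τ e (v l) ≤ v l' ↔ l < σ e) := by
  classical
  have key : ∀ t, t ≤ k + 1 → ∃ (v : ℕ → ℕ) (W : Finset ℕ) (S : Finset η) (σ : η → ℕ),
      W ⊆ V ∧ S ⊆ E ((range t).image v) ∧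
      (4 * 2 ^ M₁) ^ (k + 1 - t) * (4 * M₂) ^ (M₂ - S.card) ≤ W.card ∧
      (∀ i < t, v i ∈ V) ∧ (∀ i j, i < j → j < t → v i < v j) ∧
      (∀ i < t, ∀ w ∈ W, v i < w) ∧
      (∀ d ∈ D ((range t).image v), ∀ w ∈ W, ∀ w' ∈ W, holds d w ↔ holds d w') ∧
      (∀ j < t, ∀ d ∈ D ((range j).image v), ∀ l, j ≤ l → l < t → ∀ w ∈ W,
        (holds d (v l) ↔ holds d w)) ∧
      (∀ e ∈ S, ∀ w ∈ W, ∀ w' ∈ W, w' < τ e w) ∧
      (∀ e, (e ∉ S → σ e = k + 1) ∧ (e ∈ S → σ e ≤ t)) ∧
      (∀ j ≤ t, ∀ e ∈ E ((range j).image v), ∀ l, j ≤ l → l < t →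
        (l < σ e → (∀ w ∈ W, τ e (v l) ≤ w) ∧ ∀ l', l < l' → l' < t → τ e (v l) ≤ v l') ∧
        (σ e ≤ l → (∀ w ∈ W, w < τ e (v l)) ∧ ∀ l', l < l' → l' < t → v l' < τ e (v l))) := by
    intro t
    induction t with
    | zero =>
      intro _
      refine ⟨fun _ => 0, V, ∅, fun _ => k + 1, Subset.rfl, empty_subset _, ?_, by simp, by simp,
        by simp, ?_, by simp, by simp, by simp, ?_⟩
      · simpa using hV
      · intro d hd
        rw [range_zero, image_empty, hD0] at hd
        simp at hd
      · intro j _ e _ l _ hl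
        omega
    | succ t ih =>
      intro ht
      obtain ⟨v, W, S, σ, hWV, hSE, hWc, hvV, hvm, hvW, h1, h2, hS, hσ, h3⟩ := ih (by omega)
      have hTc : ((range t).image v).card ≤ k + 1 :=
        (card_image_le.trans (by rw [card_range])).trans (by omega)
      obtain ⟨S', hSS', hS'E, w0, hw0, W1, hW1, hW1c, hlt, hf1, hf2, htr⟩ := sat τ M₂
        (2 ^ M₁ * (4 * 2 ^ M₁) ^ (k - t)) (E ((range t).image v)) (hE _ hTc)
        (Nat.mul_pos (by positivity) (by positivity)) _ S W le_rfl hSE (by
          refine le_trans (le_of_eq ?_) hWc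
          rw [show k + 1 - t = (k - t) + 1 by omega, pow_succ]
          ring) hS
      set v' := Function.update v t w0 with hv'
      have hv't : v' t = w0 := by simp [hv']
      have hv'lt : ∀ i, i < t → v' i = v i := fun i hi => by
        simp [hv', Function.update_of_ne (Nat.ne_of_lt hi)]
      have him : ∀ j, j ≤ t → (range j).image v' = (range j).image v := by
        intro j hj
        apply image_congr
        intro i hi
        exact hv'lt i (lt_of_lt_of_le (by simpa using hi) hj)
      set T' := (range (t + 1)).image v' with hT'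
      have hT'c : T'.card ≤ k + 1 := (card_image_le.trans (by rw [card_range])).trans ht
      -- the refinement
      obtain ⟨y, -, hy⟩ := exists_le_card_fiber_of_mul_le_card_of_maps_to
        (s := W1) (t := (D T').powerset) (f := fun w => (D T').filter (fun d => holds d w))
        (n := (4 * 2 ^ M₁) ^ (k - t) * (4 * M₂) ^ (M₂ - S'.card))
        (fun w _ => mem_powerset.2 (filter_subset _ _)) ⟨∅, by simp⟩ (by
          rw [card_powerset]
          refine le_trans ?_ hW1c
          rw [← mul_assoc]
          apply Nat.mul_le_mul_right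
          apply Nat.mul_le_mul_right
          exact Nat.pow_le_pow_right (by norm_num) (hD _ hT'c))
      set W2 := W1.filter (fun w => (D T').filter (fun d => holds d w) = y) with hW2
      have hW21 : ∀ w ∈ W2, w ∈ W1 := fun w hw => (mem_filter.1 hw).1
      have hW2W : ∀ w ∈ W2, w ∈ W := fun w hw => hW1 (hW21 w hw)
      obtain ⟨σ', s1, s2, s3⟩ : ∃ σ' : η → ℕ, (∀ e ∈ S, σ' e = σ e) ∧
          (∀ e, e ∉ S → e ∈ S' → σ' e = t) ∧ (∀ e, e ∉ S' → σ' e = k + 1) := by
        refine ⟨fun e => if e ∈ S then σ e else if e ∈ S' then t else k + 1, ?_, ?_, ?_⟩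
        · intro e he
          simp only [if_pos he]
        · intro e he he'
          simp only [if_neg he, if_pos he']
        · intro e he
          simp only [if_neg (fun h' => he (hSS' h')), if_neg he]
      refine ⟨v', W2, S', σ', fun w hw => hWV (hW2W w hw), ?_, ?_, ?_, ?_, ?_, ?_, ?_, ?_, ?_, ?_⟩
      · refine hS'E.trans ?_
        rw [← him t le_rfl]
        exact hEm _ _ (image_subset_image (range_subset_range.2 (by omega)))
      · rw [show k + 1 - (t + 1) = k - t by omega]
        exact hy
      · intro i hi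
        rcases Nat.lt_succ_iff_lt_or_eq.1 hi with h | h
        · rw [hv'lt i h]; exact hvV i h
        · rw [h, hv't]; exact hWV hw0
      · intro i j hij hj
        rcases Nat.lt_succ_iff_lt_or_eq.1 hj with h | h
        · rw [hv'lt i (hij.trans h), hv'lt j h]; exact hvm i j hij h
        · rw [h, hv't, hv'lt i (h ▸ hij)]; exact hvW i (h ▸ hij) w0 hw0
      · intro i hi w hw
        rcases Nat.lt_succ_iff_lt_or_eq.1 hi with h | h
        · rw [hv'lt i h]; exact hvW i h w (hW2W w hw)
        · rw [h, hv't]; exact hlt w (hW21 w hw)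
      · intro d hd w hw w' hw'
        have e1 := (mem_filter.1 hw).2
        have e2 := (mem_filter.1 hw').2
        have e3 : d ∈ (D T').filter (fun d => holds d w) ↔
            d ∈ (D T').filter (fun d => holds d w') := by rw [e1, e2]
        rw [mem_filter, mem_filter] at e3
        exact ⟨fun h => (e3.1 ⟨hd, h⟩).2, fun h => (e3.2 ⟨hd, h⟩).2⟩
      · intro j hj d hd l hjl hl w hw
        rw [him j (by omega)] at hd
        rcases Nat.lt_succ_iff_lt_or_eq.1 hl with h | h
        · rw [hv'lt l h]
          exact h2 j (by omega) d hd l hjl h w (hW2W w hw)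
        · rw [h, hv't]
          have hd' : d ∈ D ((range t).image v) :=
            hDm _ _ (image_subset_image (range_subset_range.2 (by omega))) hd
          exact h1 d hd' w0 hw0 w (hW2W w hw)
      · intro e he w hw w' hw'
        exact hf2 e he w (hW21 w hw) w' (hW21 w' hw')
      · intro e
        refine ⟨fun h => ?_, fun h => ?_⟩
        · exact s3 e h
        · by_cases h' : e ∈ S
          · rw [s1 e h']
            exact ((hσ e).2 h').trans (by omega)
          · rw [s2 e h' h]
            omega
      · intro j hj e he l hjl hl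
        rcases Nat.lt_succ_iff_lt_or_eq.1 hl with h | h
        · -- old `l`
          have hj' : j ≤ t := by omega
          rw [him j hj'] at he
          obtain ⟨g1, g2⟩ := h3 j hj' e he l hjl h
          rw [hv'lt l h]
          have htrue : l < σ e → (∀ w ∈ W2, τ e (v l) ≤ w) ∧
              ∀ l', l < l' → l' < t + 1 → τ e (v l) ≤ v' l' := by
            intro hlσ
            obtain ⟨g3, g4⟩ := g1 hlσ
            refine ⟨fun w hw => g3 w (hW2W w hw), fun l' h5 h6 => ?_⟩
            rcases Nat.lt_succ_iff_lt_or_eq.1 h6 with h7 | h7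
            · rw [hv'lt l' h7]; exact g4 l' h5 h7
            · rw [h7, hv't]; exact g3 w0 hw0
          have hfalse : σ e ≤ l → (∀ w ∈ W2, w < τ e (v l)) ∧
              ∀ l', l < l' → l' < t + 1 → v' l' < τ e (v l) := by
            intro hlσ
            obtain ⟨g3, g4⟩ := g2 hlσ
            refine ⟨fun w hw => g3 w (hW2W w hw), fun l' h5 h6 => ?_⟩
            rcases Nat.lt_succ_iff_lt_or_eq.1 h6 with h7 | h7
            · rw [hv'lt l' h7]; exact g4 l' h5 h7
            · rw [h7, hv't]; exact g3 w0 hw0
          by_cases hS1 : e ∈ S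
          · rw [s1 e hS1]
            exact ⟨htrue, hfalse⟩
          · have h8 := (hσ e).1 hS1
            by_cases hS2 : e ∈ S'
            · rw [s2 e hS1 hS2]
              exact ⟨fun _ => htrue (by omega), fun h9 => by omega⟩
            · rw [s3 e hS2]
              exact ⟨fun _ => htrue (by omega), fun h9 => by omega⟩
        · -- new `l`
          rw [h, hv't]
          have heE : e ∈ E ((range t).image v) := by
            rcases Nat.lt_succ_iff_lt_or_eq.1 (Nat.lt_succ_of_le hj) with h5 | h5
            · rw [him j (by omega)] at he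
              exact hEm _ _ (image_subset_image (range_subset_range.2 (by omega))) he
            · omega
          by_cases hS2 : e ∈ S'
          · have h6 : σ' e ≤ t := by
              by_cases hS1 : e ∈ S
              · rw [s1 e hS1]; exact (hσ e).2 hS1
              · rw [s2 e hS1 hS2]
            refine ⟨fun h7 => by omega, fun _ => ⟨fun w hw => hf1 e hS2 w (hW21 w hw),
              fun l' h7 h8 => by omega⟩⟩
          · rw [s3 e hS2]
            refine ⟨fun _ => ⟨fun w hw => htr e heE hS2 w (hW21 w hw),
              fun l' h7 h8 => by omega⟩, fun h7 => by omega⟩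
  obtain ⟨v, W, S, σ, hWV, hSE, hWc, hvV, hvm, hvW, h1, h2, hS, hσ, h3⟩ := key (k + 1) le_rfl
  have hne : W.Nonempty := by
    rw [← card_pos]
    refine lt_of_lt_of_le ?_ hWc
    rw [Nat.sub_self, pow_zero, one_mul]
    rcases Nat.eq_zero_or_pos M₂ with h | h
    · subst h; simp
    · positivity
  obtain ⟨w, hw⟩ := hne
  refine ⟨v, fun i hi => hvV i (by omega), fun i j hij hj => hvm i j hij (by omega), ?_, σ, ?_⟩
  · intro j hj d hd l hjl hl
    rw [h2 j (by omega) d hd l hjl (by omega) w hw, h2 j (by omega) d hd k hj (by omega) w hw]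
  · intro j hj e he l l' hjl hll' hl'
    obtain ⟨g1, g2⟩ := h3 j (by omega) e he l hjl (by omega)
    constructor
    · intro h
      by_contra hcon
      push Not at hcon
      have := (g2 hcon).2 l' hll' (by omega)
      omega
    · intro h
      exact (g1 h).2 l' hll' (by omega)

end Pool.Agent.T3h47.EQ
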