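import Pool.Agent.T3h47.EQ.Conv
import Pool.Agent.T3h47.EQ.Sel

/-!
# From uniformity `s + 3` to uniformity `s + 2`
-/

set_option autoImplicit false

namespace Pool.Agent.T3h47.EQ

open Finset

variable {κ : Type}

/-- number of equalities -/
def M1 (s b k : ℕ) : ℕ := 2 * ((2 * 2 ^ b) ^ 2 * (k + 1) ^ (2 * s + 3))

/-- number of thresholds -/
def M2 (s b k : ℕ) : ℕ := 2 ^ b * (k + 1) ^ (s + 1)

/-- the number of vertices which is needed -/
def cost (s b k : ℕ) : ℕ := (4 * 2 ^ M1 s b k) ^ (k + 1) * (4 * M2 s b k) ^ M2 s b k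

theorem comp_sn {m : ℕ} (v : ℕ → ℕ) (w : Fin m → ℕ) (z : ℕ) :
    (fun a => v (sn w z a)) = sn (fun a => v (w a)) (v z) := by
  funext a
  refine Fin.lastCases ?_ (fun a => ?_) a
  · rw [sn, sn, Fin.snoc_last, Fin.snoc_last]
  · rw [sn, sn, Fin.snoc_castSucc, Fin.snoc_castSucc]

theorem init_sn {m : ℕ} (w : Fin m → ℕ) (z : ℕ) : Fin.init (sn w z) = w := by
  rw [sn]
  exact Fin.init_snoc _ _

open Classical in
theorem step {s : ℕ} (P : DT (Qy (s + 1)) κ) (b k : ℕ) (hb : P.depth ≤ b) (V : Finset ℕ)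
    (hV : cost s b k ≤ V.card) :
    ∃ (v : ℕ → ℕ) (P' : DT (Qy s) κ), (∀ i ≤ k, v i ∈ V) ∧ (∀ i j, i < j → j ≤ k → v i < v j) ∧
      P'.depth ≤ 2 * b ∧ ∀ x : Fin (s + 3) → ℕ, StrictMono x → (∀ a, x a ≤ k) →
        P.run (Qy.ev (fun a => v (x a))) = P'.run (Qy.ev (Fin.init x)) := by
  set lf := funs P.queries with hlf
  set lt := thrs P.queries with hlt
  let F : ℕ → ((Fin (s + 2) → ℕ) → ℕ) := fun a => lf.getD a (fun _ => 0)
  let G : ℕ → ((Fin (s + 2) → ℕ) → ℕ) := fun a => lt.getD a (fun _ => 0)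
  have hql : P.queries.length ≤ 2 ^ b := by
    have h1 := P.queries_length
    have h2 : 2 ^ P.depth ≤ 2 ^ b := Nat.pow_le_pow_right (by norm_num) hb
    omega
  have hK : lf.length ≤ 2 * 2 ^ b := (funs_length _).trans (by omega)
  have hK' : lt.length ≤ 2 ^ b := (thrs_length _).trans hql
  let D : Finset ℕ → Finset ((((ℕ × ℕ) × (Fin (s + 2) → ℕ)) × (Fin (s + 1) → ℕ)) × Bool) :=
    fun T => (((range lf.length ×ˢ range lf.length) ×ˢ
      (Fintype.piFinset fun _ : Fin (s + 2) => T)) ×ˢ
      (Fintype.piFinset fun _ : Fin (s + 1) => T)) ×ˢ (univ : Finset Bool)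
  let E : Finset ℕ → Finset (ℕ × (Fin (s + 1) → ℕ)) :=
    fun T => range lt.length ×ˢ (Fintype.piFinset fun _ : Fin (s + 1) => T)
  let holds : ((((ℕ × ℕ) × (Fin (s + 2) → ℕ)) × (Fin (s + 1) → ℕ)) × Bool) → ℕ → Prop :=
    fun d z => if d.2 = true then
      F d.1.1.1.1 (sn (Fin.init d.1.1.2) z) = F d.1.1.1.2 (sn d.1.2 z)
      else F d.1.1.1.1 d.1.1.2 = F d.1.1.1.2 (sn d.1.2 z)
  let τ : (ℕ × (Fin (s + 1) → ℕ)) → ℕ → ℕ := fun e z => G e.1 (sn e.2 z)
  have hpi : ∀ (m : ℕ) (T T' : Finset ℕ), T ⊆ T' →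
      (Fintype.piFinset fun _ : Fin m => T) ⊆ (Fintype.piFinset fun _ : Fin m => T') :=
    fun m T T' h => Fintype.piFinset_subset _ _ (fun _ => h)
  have hpic : ∀ (m : ℕ) (T : Finset ℕ), T.card ≤ k + 1 →
      (Fintype.piFinset fun _ : Fin m => T).card ≤ (k + 1) ^ m := by
    intro m T hT
    rw [Fintype.card_piFinset, prod_const, card_univ, Fintype.card_fin]
    exact Nat.pow_le_pow_left hT m
  obtain ⟨v, hv1, hv2, hv3, σ, hv4⟩ := er D holds E τ
    (fun T T' h => product_subset_product (product_subset_product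
      (product_subset_product Subset.rfl (hpi _ _ _ h)) (hpi _ _ _ h)) Subset.rfl)
    (fun T T' h => product_subset_product Subset.rfl (hpi _ _ _ h))
    (by
      simp only [D]
      rw [eq_empty_iff_forall_notMem]
      intro d hd
      simp only [mem_product, Fintype.mem_piFinset] at hd
      exact absurd (hd.1.2 0) (by simp)) k (M1 s b k) (M2 s b k) (by
      intro T hT
      simp only [D, card_product, card_range, card_univ, Fintype.card_bool, M1]
      have h1 := hpic (s + 2) T hT
      have h2 := hpic (s + 1) T hT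
      calc _ ≤ (2 * 2 ^ b) * (2 * 2 ^ b) * (k + 1) ^ (s + 2) * (k + 1) ^ (s + 1) * 2 := by gcongr
        _ = _ := by ring) (by
      intro T hT
      simp only [E, card_product, card_range, M2]
      exact Nat.mul_le_mul hK' (hpic _ T hT)) V hV
  -- independence of the last index
  have hmemT : ∀ z, ∀ y < z, v y ∈ (range z).image v :=
    fun z y hy => mem_image_of_mem _ (mem_range.2 hy)
  have hZI : ∀ f ∈ lf, ∀ g ∈ lf, ZI k (fun u : Fin (s + 2) → ℕ => f (fun a => v (u a)))
      (fun u => g (fun a => v (u a))) := by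
    intro f hf g hg z hz
    obtain ⟨a, ha, hfa⟩ := List.getElem_of_mem hf
    obtain ⟨a', ha', hga⟩ := List.getElem_of_mem hg
    have hFa : F a = f := by simp only [F]; rw [List.getD_eq_getElem _ _ ha, hfa]
    have hGa : F a' = g := by simp only [F]; rw [List.getD_eq_getElem _ _ ha', hga]
    refine ⟨fun u w hu hw => ?_, fun w w' hw hw' => ?_⟩
    · have h1 := hv3 z hz ((((a, a'), fun c => v (u c)), fun c => v (w c)), false) (by
        simp only [D, mem_product, mem_range, Fintype.mem_piFinset, mem_univ, and_true]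
        exact ⟨⟨⟨ha, ha'⟩, fun c => hmemT z _ (hu c)⟩, fun c => hmemT z _ (hw c)⟩) z le_rfl hz
      simp only [holds, Bool.false_eq_true, if_false, hFa, hGa] at h1
      simp only [comp_sn]
      exact h1
    · have h1 := hv3 z hz ((((a, a'), sn (fun c => v (w c)) (v (w 0))), fun c => v (w' c)), true)
        (by
        simp only [D, mem_product, mem_range, Fintype.mem_piFinset, mem_univ, and_true]
        refine ⟨⟨⟨ha, ha'⟩, fun c => ?_⟩, fun c => hmemT z _ (hw' c)⟩
        refine Fin.lastCases ?_ (fun c => ?_) c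
        · rw [sn, Fin.snoc_last]; exact hmemT z _ (hw 0)
        · rw [sn, Fin.snoc_castSucc]; exact hmemT z _ (hw c)) z le_rfl hz
      simp only [holds, if_true, hFa, hGa, init_sn] at h1
      simp only [comp_sn]
      exact h1
  have hconv : ∀ q : Qy (s + 1), ∃ T : DT (Qy s) Bool, T.depth ≤ 2 ∧ (q ∈ P.queries →
      ∀ x : Fin (s + 3) → ℕ, StrictMono x → (∀ a, x a ≤ k) →
        T.run (Qy.ev (Fin.init x)) = Qy.ev (fun a => v (x a)) q) := by
    intro q
    by_cases hq : q ∈ P.queries
    · cases q with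
      | eq i j f g =>
        obtain ⟨hf, hg⟩ := mem_funs hq
        obtain ⟨T, h1, h2⟩ := conv_eq (fun u : Fin (s + 2) → ℕ => f (fun a => v (u a)))
          (fun u => g (fun a => v (u a))) (hZI f hf f hf) (hZI f hf g hg) (hZI g hg f hf)
          (hZI g hg g hg) i j
        exact ⟨T, h1, fun _ x hx hk => h2 x hx hk⟩
      | thr t =>
        have ht := mem_thrs hq
        obtain ⟨a, ha, hta⟩ := List.getElem_of_mem ht
        have hGa : G a = t := by simp only [G]; rw [List.getD_eq_getElem _ _ ha, hta]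
        obtain ⟨T, h1, h2⟩ := conv_thr (k := k)
          (fun (u : Fin (s + 2) → ℕ) z => t (fun c => v (u c)) ≤ v z)
          (fun B => σ (a, fun c => v (B c))) (by
            intro B y z hB hyz hz
            have h3 := hv4 y (by omega) (a, fun c => v (B c)) (by
              simp only [E, mem_product, mem_range, Fintype.mem_piFinset]
              exact ⟨ha, fun c => hmemT y _ (hB c)⟩) y z le_rfl hyz hz
            simp only [τ, hGa] at h3
            simp only [comp_sn]
            exact h3)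
        refine ⟨T, h1, fun _ x hx hk => ?_⟩
        rw [Bool.eq_iff_iff, h2 x hx hk]
        simp only [Qy.ev, decide_eq_true_eq]
        rw [rem_last]
        rfl
    · exact ⟨.out true, by simp [DT.depth], fun h => absurd h hq⟩
  choose φ h1 h2 using hconv
  refine ⟨v, P.subst φ, hv1, hv2, ?_, fun x hx hk => ?_⟩
  · exact (P.depth_subst φ 2 h1).trans (Nat.mul_le_mul_left _ hb)
  · exact (P.run_subst φ _ _ (fun q hq => h2 q hq x hx hk)).symm

end Pool.Agent.T3h47.EQ
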