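import Mathlib

/-!
# Decision trees and queries
-/

set_option autoImplicit false

namespace Pool.Agent.T3h47.EQ

/-- Decision trees with queries in `Q` and outputs in `κ`: at `ask q P R` the query `q` is made and
the tree is continued with `P` if the answer is `false` and with `R` if it is `true`. -/
inductive DT (Q κ : Type) : Type
  | out (a : κ) : DT Q κ
  | ask (q : Q) (P R : DT Q κ) : DT Q κ

namespace DT

variable {Q Q' κ : Type}

/-- the output -/
def run (ev : Q → Bool) : DT Q κ → κ
  | .out a => a
  | .ask q P R => if ev q then run ev R else run ev P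

/-- the depth -/
def depth : DT Q κ → ℕ
  | .out _ => 0
  | .ask _ P R => max P.depth R.depth + 1

/-- the queries -/
def queries : DT Q κ → List Q
  | .out _ => []
  | .ask q P R => q :: (P.queries ++ R.queries)

theorem queries_length (P : DT Q κ) : P.queries.length + 1 ≤ 2 ^ P.depth := by
  induction P with
  | out a => simp [queries, depth]
  | ask q P R ihP ihR =>
    simp only [queries, depth, List.length_cons, List.length_append]
    have h1 : 2 ^ P.depth ≤ 2 ^ max P.depth R.depth :=
      Nat.pow_le_pow_right (by norm_num) (le_max_left _ _)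
    have h2 : 2 ^ R.depth ≤ 2 ^ max P.depth R.depth :=
      Nat.pow_le_pow_right (by norm_num) (le_max_right _ _)
    rw [pow_succ]
    omega

/-- the leaves `false` of the tree are replaced by `A`, the leaves `true` by `B` -/
def graft (A B : DT Q κ) : DT Q Bool → DT Q κ
  | .out b => if b then B else A
  | .ask q P R => .ask q (graft A B P) (graft A B R)

theorem run_graft (ev : Q → Bool) (A B : DT Q κ) (T : DT Q Bool) :
    (graft A B T).run ev = if T.run ev then B.run ev else A.run ev := by
  induction T with
  | out b => cases b <;> simp [graft, run]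
  | ask q P R ihP ihR =>
    simp only [graft, run]
    split_ifs <;> simp_all

theorem depth_graft (A B : DT Q κ) (T : DT Q Bool) :
    (graft A B T).depth ≤ T.depth + max A.depth B.depth := by
  induction T with
  | out b => cases b <;> simp [graft, depth]
  | ask q P R ihP ihR =>
    simp only [graft, depth]
    omega

/-- each query `q` is replaced by the tree `φ q` -/
def subst (φ : Q → DT Q' Bool) : DT Q κ → DT Q' κ
  | .out a => .out a
  | .ask q P R => graft (subst φ P) (subst φ R) (φ q)

theorem run_subst (φ : Q → DT Q' Bool) (ev : Q → Bool) (ev' : Q' → Bool) (P : DT Q κ)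
    (h : ∀ q ∈ P.queries, (φ q).run ev' = ev q) : (P.subst φ).run ev' = P.run ev := by
  induction P with
  | out a => rfl
  | ask q P R ihP ihR =>
    simp only [subst, run]
    rw [run_graft, ihP (fun q hq => h q (by simp [queries, hq])),
      ihR (fun q hq => h q (by simp [queries, hq])), h q (by simp [queries])]

theorem depth_subst (φ : Q → DT Q' Bool) (m : ℕ) (h : ∀ q, (φ q).depth ≤ m) (P : DT Q κ) :
    (P.subst φ).depth ≤ m * P.depth := by
  induction P with
  | out a => simp [subst, depth]
  | ask q P R ihP ihR =>
    simp only [subst, depth]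
    refine (depth_graft _ _ _).trans ?_
    have h1 := h q
    have h2 : max (P.subst φ).depth (R.subst φ).depth ≤ m * max P.depth R.depth :=
      max_le (ihP.trans (Nat.mul_le_mul_left _ (le_max_left _ _)))
        (ihR.trans (Nat.mul_le_mul_left _ (le_max_right _ _)))
    rw [Nat.mul_add, mul_one]
    omega

end DT

/-- The queries about `x 0 < … < x (s + 1)`: the equality `f (x without x i) = g (x without x j)`
and the threshold `τ (x 0, …, x s) ≤ x (s + 1)`. -/
inductive Qy (s : ℕ) : Type
  | eq (i j : Fin (s + 2)) (f g : (Fin (s + 1) → ℕ) → ℕ) : Qy s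
  | thr (τ : (Fin (s + 1) → ℕ) → ℕ) : Qy s

/-- the answer -/
def Qy.ev {s : ℕ} (x : Fin (s + 2) → ℕ) : Qy s → Bool
  | .eq i j f g => decide (f (i.removeNth x) = g (j.removeNth x))
  | .thr τ => decide (τ ((Fin.last _).removeNth x) ≤ x (Fin.last _))

/-- the functions of the equality queries in a list -/
def funs {s : ℕ} : List (Qy s) → List ((Fin (s + 1) → ℕ) → ℕ)
  | [] => []
  | .eq _ _ f g :: l => f :: g :: funs l
  | .thr _ :: l => funs l

/-- the functions of the threshold queries in a list -/
def thrs {s : ℕ} : List (Qy s) → List ((Fin (s + 1) → ℕ) → ℕ)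
  | [] => []
  | .eq _ _ _ _ :: l => thrs l
  | .thr τ :: l => τ :: thrs l

theorem funs_length {s : ℕ} (l : List (Qy s)) : (funs l).length ≤ 2 * l.length := by
  induction l with
  | nil => simp [funs]
  | cons q l ih => cases q <;> simp only [funs, List.length_cons] <;> omega

theorem thrs_length {s : ℕ} (l : List (Qy s)) : (thrs l).length ≤ l.length := by
  induction l with
  | nil => simp [thrs]
  | cons q l ih => cases q <;> simp only [thrs, List.length_cons] <;> omega

theorem mem_funs {s : ℕ} {l : List (Qy s)} {i j : Fin (s + 2)} {f g : (Fin (s + 1) → ℕ) → ℕ}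
    (h : Qy.eq i j f g ∈ l) : f ∈ funs l ∧ g ∈ funs l := by
  induction l with
  | nil => simp at h
  | cons q l ih =>
    rcases List.mem_cons.1 h with h | h'
    · subst h
      simp [funs]
    · have := ih h'
      cases q <;> simp [funs, this]

theorem mem_thrs {s : ℕ} {l : List (Qy s)} {τ : (Fin (s + 1) → ℕ) → ℕ}
    (h : Qy.thr τ ∈ l) : τ ∈ thrs l := by
  induction l with
  | nil => simp at h
  | cons q l ih =>
    rcases List.mem_cons.1 h with h | h'
    · subst h
      simp [thrs]
    · have := ih h'
      cases q <;> simp [thrs, this]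

/-! ### Tuples -/

theorem rem_last {m : ℕ} (x : Fin (m + 1) → ℕ) : (Fin.last m).removeNth x = Fin.init x := by
  funext a
  simp [Fin.removeNth_apply, Fin.succAbove_last, Fin.init]

theorem rem_castSucc {m : ℕ} (x : Fin (m + 2) → ℕ) (i : Fin (m + 1)) :
    i.castSucc.removeNth x =
      Fin.snoc (α := fun _ => ℕ) (i.removeNth (Fin.init x)) (x (Fin.last (m + 1))) := by
  funext a
  rw [Fin.removeNth_apply]
  refine Fin.lastCases ?_ (fun a => ?_) a
  · rw [Fin.snoc_last, Fin.succAbove_of_le_castSucc _ _ (by
      rw [Fin.castSucc_le_castSucc_iff]; exact Fin.le_last i), Fin.succ_last]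
  · rw [Fin.snoc_castSucc, Fin.castSucc_succAbove_castSucc]
    rfl

theorem snoc_init {m : ℕ} (x : Fin (m + 1) → ℕ) :
    Fin.snoc (α := fun _ => ℕ) (Fin.init x) (x (Fin.last m)) = x := Fin.snoc_init_self x

end Pool.Agent.T3h47.EQ
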